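import Pool.Agent.N789.QD.GW3
import Pool.Agent.N275.QD.Def

/-!
# The Dirichlet heat kernel of an obtuse wedge
-/

namespace Pool.Agent.N789.GW

open MeasureTheory Set Filter Topology Complex
open Pool.Agent.R225.LP (gk)
open Pool.Agent.N275.QD Pool.Agent.N789.KF
open scoped Real ComplexConjugate

/-! ### the auxiliary harmonic function -/

/-- `Re (e^{iθ/2} / z)` with `θ = π - α` -/
noncomputable def h0 (α : ℝ) (z : ℂ) : ℝ := (Complex.exp ((((π - α) / 2 : ℝ) : ℂ) * I) / z).re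

lemma h0_eq {α : ℝ} {z : ℂ} (hz : z ≠ 0) : h0 α z = Real.cos ((π - α) / 2 - arg z) / ‖z‖ := by
  have hn : (‖z‖ : ℂ) ≠ 0 := by
    have := norm_pos_iff.2 hz
    exact_mod_cast this.ne'
  unfold h0
  have h1 : Complex.exp ((((π - α) / 2 : ℝ) : ℂ) * I) / z =
      Complex.exp ((((π - α) / 2 - arg z : ℝ) : ℂ) * I) / ((‖z‖ : ℝ) : ℂ) := by
    have h2 := Complex.norm_mul_exp_arg_mul_I z
    have h3 : Complex.exp ((((π - α) / 2 : ℝ) : ℂ) * I) =
        Complex.exp ((((π - α) / 2 - arg z : ℝ) : ℂ) * I) * Complex.exp ((arg z : ℂ) * I) := by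
      rw [← Complex.exp_add]
      congr 1
      push_cast
      ring
    rw [div_eq_div_iff hz hn, h3]
    linear_combination (Complex.exp ((((π - α) / 2 - arg z : ℝ) : ℂ) * I)) * h2
  rw [h1, Complex.div_ofReal_re, Complex.exp_ofReal_mul_I_re]

lemma h0_lower {α : ℝ} (hα : 0 < α) (hα2 : α < π / 2) {z : ℂ} (hz : z ∈ Wc α) :
    Real.cos ((π - α) / 2) / ‖z‖ ≤ h0 α z := by
  have hpi := Real.pi_pos
  rw [h0_eq hz.1]
  have hn : 0 < ‖z‖ := norm_pos_iff.2 hz.1
  gcongr
  rw [← Real.cos_abs ((π - α) / 2 - arg z)]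
  apply Real.cos_le_cos_of_nonneg_of_le_pi (abs_nonneg _)
  · linarith
  · rw [abs_le]
    constructor
    · linarith [hz.2.2]
    · linarith [hz.2.1]

lemma cos_half_pos {α : ℝ} (hα : 0 < α) (hα2 : α < π / 2) : 0 < Real.cos ((π - α) / 2) := by
  have hpi := Real.pi_pos
  apply Real.cos_pos_of_mem_Ioo
  constructor <;> linarith

lemma h0_pos {α : ℝ} (hα : 0 < α) (hα2 : α < π / 2) {z : ℂ} (hz : z ∈ Wc α) : 0 < h0 α z :=
  lt_of_lt_of_le (div_pos (cos_half_pos hα hα2) (norm_pos_iff.2 hz.1)) (h0_lower hα hα2 hz)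

lemma h0_continuousAt (α : ℝ) {z : ℂ} (hz : z ≠ 0) : ContinuousAt (h0 α) z := by
  unfold h0
  apply Complex.continuous_re.continuousAt.comp
  exact continuousAt_const.div continuousAt_id hz

/-- second derivative of `Re (c / (z + s e))` -/
lemma D2_inv (c z e : ℂ) (hz : z ≠ 0) :
    D2 (fun s : ℝ => (c / (z + (s : ℂ) * e)).re) (2 * (c * e ^ 2 / z ^ 3)).re := by
  have hlin : ∀ s : ℝ, HasDerivAt (fun s : ℝ => z + (s : ℂ) * e) e s := by
    intro s
    have := ((Complex.ofRealCLM.hasDerivAt (x := s)).mul_const e).const_add z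
    simpa using this
  refine ⟨fun s => (-(c * e / (z + (s : ℂ) * e) ^ 2)).re, ?_, ?_⟩
  · have hne : ∀ᶠ s : ℝ in 𝓝 0, z + (s : ℂ) * e ≠ 0 := by
      have hc : ContinuousAt (fun s : ℝ => z + (s : ℂ) * e) 0 := (hlin 0).continuousAt
      exact hc.eventually_ne (by simpa using hz)
    filter_upwards [hne] with s hs
    have h1 := ((hlin s).inv hs).const_mul c
    have h2 := Complex.reCLM.hasFDerivAt.comp_hasDerivAt s h1
    have h3 : HasDerivAt (fun s : ℝ => (c / (z + (s : ℂ) * e)).re)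
        (Complex.reCLM (c * (-e / (z + (s : ℂ) * e) ^ 2))) s := by
      refine h2.congr_of_eventuallyEq ?_
      filter_upwards with r
      simp [div_eq_mul_inv]
    refine h3.congr_deriv ?_
    simp only [Complex.reCLM_apply]
    congr 1
    ring
  · have h0 : z + ((0 : ℝ) : ℂ) * e ≠ 0 := by simpa using hz
    have h0' : (z + ((0 : ℝ) : ℂ) * e) ^ 2 ≠ 0 := pow_ne_zero 2 h0
    have h1 := ((((hlin 0).pow 2).inv h0').const_mul (c * e)).neg
    have h2 := Complex.reCLM.hasFDerivAt.comp_hasDerivAt (0 : ℝ) h1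
    have h3 : HasDerivAt (fun s : ℝ => (-(c * e / (z + (s : ℂ) * e) ^ 2)).re)
        (Complex.reCLM (-(c * e * (-(((2 : ℕ) : ℂ) * (z + ((0 : ℝ) : ℂ) * e) ^ (2 - 1) * e) /
          ((z + ((0 : ℝ) : ℂ) * e) ^ 2) ^ 2)))) 0 := by
      refine h2.congr_of_eventuallyEq ?_
      filter_upwards with r
      simp [div_eq_mul_inv]
    refine h3.congr_deriv ?_
    simp only [Complex.reCLM_apply]
    congr 1
    simp only [Complex.ofReal_zero, zero_mul, add_zero]
    push_cast
    field_simp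

lemma h0_heat (α t : ℝ) {z : ℂ} (hz : z ≠ 0) : Heat (fun _ z => h0 α z) t z := by
  have h1 := D2_inv (Complex.exp ((((π - α) / 2 : ℝ) : ℂ) * I)) z 1 hz
  have h2 := D2_inv (Complex.exp ((((π - α) / 2 : ℝ) : ℂ) * I)) z I hz
  refine ⟨(2 * (Complex.exp ((((π - α) / 2 : ℝ) : ℂ) * I) * 1 ^ 2 / z ^ 3)).re, _, ?_, h2, ?_⟩
  · simp only [mul_one] at h1
    exact h1
  · have h3 : (2 * (Complex.exp ((((π - α) / 2 : ℝ) : ℂ) * I) * 1 ^ 2 / z ^ 3)).re +
        (2 * (Complex.exp ((((π - α) / 2 : ℝ) : ℂ) * I) * I ^ 2 / z ^ 3)).re = 0 := by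
      rw [← Complex.add_re, Complex.I_sq]
      have : 2 * (Complex.exp ((((π - α) / 2 : ℝ) : ℂ) * I) * 1 ^ 2 / z ^ 3) +
        2 * (Complex.exp ((((π - α) / 2 : ℝ) : ℂ) * I) * -1 / z ^ 3) = 0 := by ring
      rw [this]
      simp
    rw [h3]
    exact hasDerivAt_const t _

/-! ### the maximum principle on the wedge -/

lemma weight_le {t r ρ : ℝ} (ht : 0 < t) (hr : 0 < r) (hρ : 0 < ρ) :
    Real.exp (-((r ^ 2 + ρ ^ 2) / (4 * t))) / t * √(t / r) ≤ 4 / ρ ^ 2 * √(t / r) := by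
  have h1 : Real.exp (-((r ^ 2 + ρ ^ 2) / (4 * t))) ≤ Real.exp (-(ρ ^ 2 / (4 * t))) := by
    apply Real.exp_le_exp.2
    apply neg_le_neg
    gcongr
    nlinarith [sq_nonneg r]
  have h2 : Real.exp (-(ρ ^ 2 / (4 * t))) ≤ 4 * t / ρ ^ 2 := by
    have h3 := Real.add_one_le_exp (ρ ^ 2 / (4 * t))
    rw [Real.exp_neg, inv_eq_one_div, div_le_div_iff₀ (Real.exp_pos _) (by positivity)]
    have h4 : ρ ^ 2 / (4 * t) ≤ Real.exp (ρ ^ 2 / (4 * t)) := by linarith
    rw [div_le_iff₀ (by positivity)] at h4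
    linarith
  have h5 : Real.exp (-((r ^ 2 + ρ ^ 2) / (4 * t))) / t ≤ 4 / ρ ^ 2 := by
    rw [div_le_iff₀ ht]
    refine (h1.trans h2).trans (le_of_eq ?_)
    ring
  gcongr

lemma isClosed_S {α : ℝ} (r R : ℝ) : IsClosed {z : ℂ | r ≤ ‖z‖ ∧ ‖z‖ ≤ R ∧ 0 ≤ z.im ∧
    0 ≤ z.re * Real.sin α + z.im * Real.cos α} := by
  have h1 := Complex.continuous_re
  have h2 := Complex.continuous_im
  have h3 : Continuous fun z : ℂ => z.re * Real.sin α + z.im * Real.cos α := by fun_prop
  exact (isClosed_le continuous_const continuous_norm).inter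
    ((isClosed_le continuous_norm continuous_const).inter
      ((isClosed_le continuous_const h2).inter (isClosed_le continuous_const h3)))

theorem mp_aux (hMP : S_MP) {α : ℝ} (hα : 0 < α) (hα2 : α < π / 2) {u : ℝ → ℂ → ℝ} {K : ℝ}
    (hK : 0 ≤ K) (hcont : ContinuousOn (fun q : ℝ × ℂ => u q.1 q.2) (Ioi 0 ×ˢ Wc α))
    (hheat : ∀ t z, 0 < t → z ∈ Wo α → Heat u t z)
    (hlow : ∀ t z, 0 < t → z ∈ Wc α → -(K * √(t / ‖z‖)) ≤ u t z)
    (hbd : ∀ t z, 0 < t → z ∈ Wc α → z ∉ Wo α → 0 ≤ u t z) :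
    ∀ t z, 0 < t → z ∈ Wo α → 0 ≤ u t z := by
  intro T z₁ hT hz₁
  have hz₁c := Wo_subset_Wc hα hα2 hz₁
  have hh1 := h0_pos hα hα2 hz₁c
  have hc0 := cos_half_pos hα hα2
  suffices h : ∀ ε : ℝ, 0 < ε → 0 ≤ u T z₁ + ε * h0 α z₁ by
    by_contra hcon
    push Not at hcon
    have h1 := h (-(u T z₁) / (2 * h0 α z₁)) (div_pos (by linarith) (by positivity))
    have h2 : -(u T z₁) / (2 * h0 α z₁) * h0 α z₁ = -(u T z₁) / 2 := by
      field_simp
    rw [h2] at h1
    linarith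
  intro ε hε
  have hmain := hMP (Wo α) T (fun t z => u t z + ε * h0 α z) (isOpen_Wo α) ?_ ?_ ?_
  · exact hmain T z₁ hT le_rfl hz₁
  · -- continuity
    apply ContinuousOn.add
    · apply hcont.mono
      rintro ⟨t, z⟩ ⟨ht, hz⟩
      exact ⟨ht.1, Wo_subset_Wc hα hα2 hz⟩
    · rintro ⟨t, z⟩ ⟨ht, hz⟩
      apply ContinuousAt.continuousWithinAt
      apply ContinuousAt.mul continuousAt_const
      exact ContinuousAt.comp (f := fun q : ℝ × ℂ => q.2) (g := h0 α)
        (h0_continuousAt α (Wo_subset_Wc hα hα2 hz).1) (by fun_prop)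
  · intro t z ht _ hz
    exact Heat_add (hheat t z ht hz)
      (Heat_const_mul ε (h0_heat α t (Wo_subset_Wc hα hα2 hz).1))
  · intro ε' hε'
    set c := Real.cos ((π - α) / 2) with hc
    set r0 := (ε * c / (K * √T + 1)) ^ 2 with hr0
    have hr0' : 0 < r0 := by positivity
    set δ := ε' / (K + 1) with hδ
    have hδ' : 0 < δ := by positivity
    set t0 := δ ^ 2 * r0 with ht0
    have ht0' : 0 < t0 := by positivity
    set R := T / δ ^ 2 with hR
    set S : Set ℂ := {z : ℂ | r0 ≤ ‖z‖ ∧ ‖z‖ ≤ R ∧ 0 ≤ z.im ∧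
      0 ≤ z.re * Real.sin α + z.im * Real.cos α} with hS
    have hSc : S ⊆ Wc α := by
      rintro z ⟨h1, _, h3, h4⟩
      rw [mem_Wc_iff hα hα2]
      refine ⟨?_, h3, h4⟩
      rintro rfl
      rw [norm_zero] at h1
      linarith
    have hScl : IsClosed S := isClosed_S r0 R
    have hScomp : IsCompact S := by
      apply Metric.isCompact_of_isClosed_isBounded hScl
      apply (Metric.isBounded_closedBall (x := (0 : ℂ)) (r := R)).subset
      rintro z ⟨_, h2, _⟩
      simpa using h2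
    have hcv : ContinuousOn (fun q : ℝ × ℂ => u q.1 q.2 + ε * h0 α q.2) (Icc t0 T ×ˢ S) := by
      apply ContinuousOn.add
      · apply hcont.mono
        rintro ⟨t, z⟩ ⟨ht, hz⟩
        exact ⟨lt_of_lt_of_le ht0' ht.1, hSc hz⟩
      · rintro ⟨t, z⟩ ⟨ht, hz⟩
        apply ContinuousAt.continuousWithinAt
        apply ContinuousAt.mul continuousAt_const
        exact ContinuousAt.comp (f := fun q : ℝ × ℂ => q.2) (g := h0 α)
          (h0_continuousAt α (hSc hz).1) (by fun_prop)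
    refine ⟨(Icc t0 T ×ˢ S) ∩ (fun q : ℝ × ℂ => u q.1 q.2 + ε * h0 α q.2) ⁻¹' (Iic (-ε')),
      ?_, ?_, ?_⟩
    · have hcomp : IsCompact (Icc t0 T ×ˢ S) := isCompact_Icc.prod hScomp
      apply hcomp.of_isClosed_subset _ inter_subset_left
      exact hcv.preimage_isClosed_of_isClosed (isClosed_Icc.prod hScl) isClosed_Iic
    · rintro ⟨t, z⟩ ⟨⟨ht, hz⟩, hq⟩
      have ht1 : 0 < t := lt_of_lt_of_le ht0' ht.1
      refine ⟨⟨ht1, ht.2⟩, ?_⟩
      by_contra hzo
      have h1 := hbd t z ht1 (hSc hz) hzo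
      have h2 := h0_pos hα hα2 (hSc hz)
      have h3 : u t z + ε * h0 α z ≤ -ε' := hq
      have h4 : 0 < ε * h0 α z := by positivity
      linarith
    · intro t z ht htT hz hnot
      by_contra hcon
      push Not at hcon
      apply hnot
      have hzc := Wo_subset_Wc hα hα2 hz
      have hzn : 0 < ‖z‖ := norm_pos_iff.2 hzc.1
      have hl := hlow t z ht hzc
      have hh := h0_lower hα hα2 hzc
      have hhp := h0_pos hα hα2 hzc
      have hr : r0 ≤ ‖z‖ := by
        by_contra hlt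
        push Not at hlt
        have h1 : √‖z‖ ≤ ε * c / (K * √T + 1) := by
          rw [Real.sqrt_le_left (by positivity)]
          exact hlt.le
        have h2 : √(t / ‖z‖) ≤ √T / √‖z‖ := by
          rw [← Real.sqrt_div hT.le]
          apply Real.sqrt_le_sqrt
          gcongr
        have hsq : 0 < √‖z‖ := Real.sqrt_pos.2 hzn
        have hsq2 : √‖z‖ * √‖z‖ = ‖z‖ := Real.mul_self_sqrt hzn.le
        have h3 : K * √(t / ‖z‖) ≤ ε * (c / ‖z‖) := by
          calc K * √(t / ‖z‖) ≤ K * (√T / √‖z‖) := by gcongr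
            _ ≤ ε * (c / ‖z‖) := by
              rw [mul_div_assoc', mul_div_assoc', div_le_div_iff₀ hsq hzn]
              rw [le_div_iff₀ (by positivity)] at h1
              have h4 : √‖z‖ * (K * √T) ≤ ε * c := by nlinarith
              calc K * √T * ‖z‖ = (√‖z‖ * (K * √T)) * √‖z‖ := by
                    linear_combination (-(K * √T)) * hsq2
                _ ≤ (ε * c) * √‖z‖ := by gcongr
        have h5 : ε * (c / ‖z‖) ≤ ε * h0 α z := by gcongr
        linarith
      have hsqrt : δ < √(t / ‖z‖) := by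
        have h1 : ε' < K * √(t / ‖z‖) := by
          have : 0 < ε * h0 α z := by positivity
          linarith
        rw [hδ, div_lt_iff₀ (by positivity)]
        have h2 := Real.sqrt_nonneg (t / ‖z‖)
        nlinarith
      have hratio : δ ^ 2 < t / ‖z‖ := by
        rw [Real.lt_sqrt hδ'.le] at hsqrt
        exact hsqrt
      rw [lt_div_iff₀ hzn] at hratio
      refine ⟨⟨⟨?_, htT⟩, ⟨hr, ?_, hz.1.le, hz.2.le⟩⟩, hcon.le⟩
      · rw [ht0]
        have : δ ^ 2 * r0 ≤ δ ^ 2 * ‖z‖ := by gcongr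
        linarith
      · rw [hR, le_div_iff₀ (by positivity)]
        linarith

/-! ### boundary points -/

lemma boundary_cases {α : ℝ} (hα : 0 < α) (hα2 : α < π / 2) {z : ℂ} (hz : z ∈ Wc α)
    (hz2 : z ∉ Wo α) : (z.im = 0 ∧ arg z = 0) ∨ (0 < z.im ∧ arg z = π - α) := by
  have hpi := Real.pi_pos
  have hc := (mem_Wc_iff hα hα2).1 hz
  have hn : 0 < ‖z‖ := norm_pos_iff.2 hz.1
  by_cases him : z.im = 0
  · left
    refine ⟨him, ?_⟩
    have h1 := Complex.norm_mul_sin_arg z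
    rw [him] at h1
    have h2 : Real.sin (arg z) = 0 := by
      rcases mul_eq_zero.1 h1 with h | h
      · linarith
      · exact h
    have h3 : arg z < π := by linarith [hz.2.2]
    by_contra hne
    have h4 : 0 < arg z := lt_of_le_of_ne hz.2.1 (Ne.symm hne)
    have := Real.sin_pos_of_pos_of_lt_pi h4 h3
    linarith
  · right
    have him' : 0 < z.im := lt_of_le_of_ne hc.2.1 (Ne.symm him)
    refine ⟨him', ?_⟩
    have h1 : z.re * Real.sin α + z.im * Real.cos α = 0 := by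
      by_contra hne
      exact hz2 ⟨him', lt_of_le_of_ne hc.2.2 (Ne.symm hne)⟩
    rw [sin_arg_add] at h1
    have h2 : Real.sin (arg z + α) = 0 := by
      rcases mul_eq_zero.1 h1 with h | h
      · linarith
      · exact h
    by_contra hne
    have h3 : arg z + α < π := by
      have := hz.2.2
      rcases this.lt_or_eq with h | h
      · linarith
      · exact absurd h hne
    have h4 : 0 < arg z + α := by linarith [hz.2.1]
    have := Real.sin_pos_of_pos_of_lt_pi h4 h3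
    linarith

lemma Hh_inter {α : ℝ} : Hh 0 ∩ Hh α = Wo α := by
  ext z
  simp [Hh, Wo]

lemma norm_sub_sq (b z : ℂ) : ‖b - z‖ ^ 2 =
    ‖z‖ ^ 2 + ‖b‖ ^ 2 - 2 * (‖z‖ * ‖b‖ * Real.cos (arg z - arg b)) := by
  rw [Real.cos_sub]
  have h1 := Complex.norm_mul_cos_arg z
  have h2 := Complex.norm_mul_sin_arg z
  have h3 := Complex.norm_mul_cos_arg b
  have h4 := Complex.norm_mul_sin_arg b
  have h5 : ‖z‖ * ‖b‖ * (Real.cos (arg z) * Real.cos (arg b) + Real.sin (arg z) * Real.sin (arg b)) =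
      (‖z‖ * Real.cos (arg z)) * (‖b‖ * Real.cos (arg b)) +
        (‖z‖ * Real.sin (arg z)) * (‖b‖ * Real.sin (arg b)) := by ring
  rw [h5, h1, h2, h3, h4, Complex.sq_norm, Complex.sq_norm, Complex.sq_norm, Complex.normSq_apply,
    Complex.normSq_apply, Complex.normSq_apply]
  simp only [Complex.sub_re, Complex.sub_im]
  ring

lemma norm_sub_conj_sq (b z : ℂ) : ‖conj b - z‖ ^ 2 =
    ‖z‖ ^ 2 + ‖b‖ ^ 2 - 2 * (‖z‖ * ‖b‖ * Real.cos (arg z + arg b)) := by
  rw [Real.cos_add]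
  have h1 := Complex.norm_mul_cos_arg z
  have h2 := Complex.norm_mul_sin_arg z
  have h3 := Complex.norm_mul_cos_arg b
  have h4 := Complex.norm_mul_sin_arg b
  have h5 : ‖z‖ * ‖b‖ * (Real.cos (arg z) * Real.cos (arg b) - Real.sin (arg z) * Real.sin (arg b)) =
      (‖z‖ * Real.cos (arg z)) * (‖b‖ * Real.cos (arg b)) -
        (‖z‖ * Real.sin (arg z)) * (‖b‖ * Real.sin (arg b)) := by ring
  rw [h5, h1, h2, h3, h4, Complex.sq_norm, Complex.sq_norm, Complex.sq_norm, Complex.normSq_apply,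
    Complex.normSq_apply, Complex.normSq_apply]
  simp only [Complex.sub_re, Complex.sub_im, Complex.conj_re, Complex.conj_im]
  ring

lemma gk_eq (t : ℝ) (z : ℂ) : gk t z = Real.exp (-(‖z‖ ^ 2 / (4 * t))) / (4 * π * t) := rfl

/-- `p_H = Gf` on the second side of the wedge -/
lemma pH_eq_Gf {α t : ℝ} {z b : ℂ} (hα : 0 < α) (hα2 : α < π / 2) (hb : b ≠ 0)
    (hb0 : 0 ≤ arg b) (hb1 : arg b < π / 2 - α) (ht : 0 < t) (hz : z ≠ 0) (hzi : 0 < z.im)
    (hz1 : arg z = π - α) : pH b t z = Gf α t z b := by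
  rw [Gf_arg_top hα hα2 hb hb0 hb1 ht hz hz1]
  unfold pH
  rw [if_pos hzi, gk_eq, gk_eq, norm_sub_sq, norm_sub_conj_sq, hz1]
  have h1 : Real.cos (π - α - arg b) = -Real.cos (α + arg b) := by
    rw [show π - α - arg b = π - (α + arg b) by ring, Real.cos_pi_sub]
  have h2 : Real.cos (π - α + arg b) = -Real.cos (α - arg b) := by
    rw [show π - α + arg b = π - (α - arg b) by ring, Real.cos_pi_sub]
  have key : ∀ c : ℝ, Real.exp (-((‖z‖ ^ 2 + ‖b‖ ^ 2 - 2 * (‖z‖ * ‖b‖ * -c)) / (4 * t))) =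
      Real.exp (-((‖z‖ ^ 2 + ‖b‖ ^ 2) / (4 * t))) *
        Real.exp (-(‖z‖ * ‖b‖ / (2 * t) * c)) := by
    intro c
    rw [← Real.exp_add]
    congr 1
    field_simp
    ring
  rw [h1, h2, key, key]
  ring

/-- the comparison facts -/
theorem Gf_between (hMP : S_MP) (hPH : S_PH) {α : ℝ} {b : ℂ} (hα : 0 < α) (hα2 : α < π / 2)
    (hbi : 0 < b.im) (hb1 : arg b < π / 2 - α) :
    (∀ t z, 0 < t → z ∈ Wo α → 0 ≤ Gf α t z b) ∧
    (∀ t z, 0 < t → z ∈ Wo α → 0 ≤ pH b t z - Gf α t z b) := by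
  have hb : b ≠ 0 := by
    rintro rfl
    simp at hbi
  have hb0 : 0 ≤ arg b := Complex.arg_nonneg_iff.2 hbi.le
  have hbn : 0 < ‖b‖ := norm_pos_iff.2 hb
  obtain ⟨K, hK, hbound⟩ := Gf_bound hα hα2 hb hb0 hb1
  have hcG := Gf_continuousOn hα hα2 hb hb0 hb1
  have hD := hPH b hbi
  have hlow : ∀ t z, 0 < t → z ∈ Wc α → |Gf α t z b| ≤ K * (4 / ‖b‖ ^ 2) * √(t / ‖z‖) := by
    intro t z ht hz
    have h1 := hbound t z ht hz.1 hz.2.1 hz.2.2
    have h2 := weight_le ht (norm_pos_iff.2 hz.1) hbn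
    calc |Gf α t z b| ≤ _ := h1
      _ ≤ K * (4 / ‖b‖ ^ 2 * √(t / ‖z‖)) := by gcongr
      _ = _ := by ring
  have hHh : ∀ z ∈ Wo α, z ∈ Hh 0 := by
    intro z hz
    rw [← Hh_inter] at hz
    exact hz.1
  constructor
  · apply mp_aux hMP hα hα2 (u := fun t z => Gf α t z b) (K := K * (4 / ‖b‖ ^ 2)) (by positivity)
      hcG
    · intro t z ht hz
      exact Gf_heat hα hα2 hb hb0 hb1 ht hz
    · intro t z ht hz
      exact (abs_le.1 (hlow t z ht hz)).1
    · intro t z ht hz hz2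
      rcases boundary_cases hα hα2 hz hz2 with ⟨_, h⟩ | ⟨h1, h2⟩
      · rw [Gf_arg_zero h]
      · rw [← pH_eq_Gf hα hα2 hb hb0 hb1 ht hz.1 h1 h2]
        exact hD.nonneg t z ht
  · apply mp_aux hMP hα hα2 (u := fun t z => pH b t z - Gf α t z b)
      (K := K * (4 / ‖b‖ ^ 2)) (by positivity)
    · apply ContinuousOn.sub _ hcG
      apply hD.cont.mono
      rintro ⟨t, z⟩ ⟨ht, _⟩
      exact ⟨ht, mem_univ _⟩
    · intro t z ht hz
      exact Heat_sub (hD.heat t z ht (hHh z hz)) (Gf_heat hα hα2 hb hb0 hb1 ht hz)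
    · intro t z ht hz
      have h1 := (abs_le.1 (hlow t z ht hz)).2
      have h2 := hD.nonneg t z ht
      linarith
    · intro t z ht hz hz2
      rcases boundary_cases hα hα2 hz hz2 with ⟨_, h⟩ | ⟨h1, h2⟩
      · rw [Gf_arg_zero h, sub_zero]
        exact hD.nonneg t z ht
      · rw [pH_eq_Gf hα hα2 hb hb0 hb1 ht hz.1 h1 h2, sub_self]

lemma pW_of_mem {α : ℝ} {b z : ℂ} (t : ℝ) (hz : z ∈ Wo α) :
    pW α b t z = pH b t z - Gf α t z b := by
  have h1 : z ∈ Hh 0 ∩ Hh α := by rwa [Hh_inter]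
  unfold pW pH
  rw [if_pos h1, if_pos hz.1]

lemma pW_of_notMem {α : ℝ} {b z : ℂ} (t : ℝ) (hz : z ∉ Wo α) : pW α b t z = 0 := by
  have h1 : z ∉ Hh 0 ∩ Hh α := by rwa [Hh_inter]
  unfold pW
  rw [if_neg h1]

/-- **GW**: the Dirichlet heat kernel of the wedge -/
theorem gw (hMP : S_MP) (hPH : S_PH) : S_GW := by
  intro α b hα hα2 hbi hb1
  have hb : b ≠ 0 := by
    rintro rfl
    simp at hbi
  have hb0 : 0 ≤ arg b := Complex.arg_nonneg_iff.2 hbi.le
  have hbn : 0 < ‖b‖ := norm_pos_iff.2 hb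
  obtain ⟨hG0, hG1⟩ := Gf_between hMP hPH hα hα2 hbi hb1
  have hcG := Gf_continuousOn hα hα2 hb hb0 hb1
  have hD := hPH b hbi
  have hHh : ∀ z ∈ Wo α, z ∈ Hh 0 := by
    intro z hz
    rw [← Hh_inter] at hz
    exact hz.1
  have hnn : ∀ t z, 0 < t → 0 ≤ pW α b t z := by
    intro t z ht
    by_cases hz : z ∈ Wo α
    · rw [pW_of_mem t hz]
      exact hG1 t z ht hz
    · rw [pW_of_notMem t hz]
  have hle : ∀ t z, 0 < t → pW α b t z ≤ pH b t z := by
    intro t z ht
    by_cases hz : z ∈ Wo α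
    · rw [pW_of_mem t hz]
      linarith [hG0 t z ht hz]
    · rw [pW_of_notMem t hz]
      exact hD.nonneg t z ht
  rw [Hh_inter]
  refine ⟨?_, hG0⟩
  refine ⟨?_, hnn, ?_, ?_, ?_⟩
  · intro t z ht hz
    have h1 := Heat_sub (hD.heat t z ht (hHh z hz)) (Gf_heat hα hα2 hb hb0 hb1 ht hz)
    refine Heat_congr ?_ h1
    have h3 : ∀ᶠ q : ℝ × ℂ in 𝓝 (t, z), q.2 ∈ Wo α :=
      (continuous_snd.tendsto (t, z)).eventually ((isOpen_Wo α).mem_nhds hz)
    filter_upwards [h3] with q hq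
    exact pW_of_mem q.1 hq
  · intro t z ht
    exact (hle t z ht).trans (hD.le t z ht)
  · intro t z _ hz
    exact pW_of_notMem t hz
  · rintro ⟨t, z⟩ ⟨ht, -⟩
    have ht' : 0 < t := ht
    apply ContinuousAt.continuousWithinAt
    have hpHc : ContinuousAt (fun q : ℝ × ℂ => pH b q.1 q.2) (t, z) :=
      hD.cont.continuousAt ((isOpen_Ioi.prod isOpen_univ).mem_nhds ⟨ht, mem_univ _⟩)
    have hpos : ∀ᶠ q : ℝ × ℂ in 𝓝 (t, z), 0 < q.1 :=
      (continuous_fst.tendsto (t, z)).eventually_const_lt ht'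
    by_cases hz : z ∈ Wo α
    · have h3 : ∀ᶠ q : ℝ × ℂ in 𝓝 (t, z), q.2 ∈ Wo α :=
        (continuous_snd.tendsto (t, z)).eventually ((isOpen_Wo α).mem_nhds hz)
      have h4 : ContinuousAt (fun q : ℝ × ℂ => Gf α q.1 q.2 b) (t, z) := by
        apply hcG.continuousAt
        filter_upwards [hpos, h3] with q h1 h2
        exact ⟨h1, Wo_subset_Wc hα hα2 h2⟩
      refine (hpHc.sub h4).congr ?_
      filter_upwards [h3] with q hq
      exact (pW_of_mem q.1 hq).symm
    · have hval : pW α b t z = 0 := pW_of_notMem t hz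
      by_cases hz0 : z = 0
      · -- the tip
        have hv : pH b t z = 0 := by
          unfold pH
          rw [if_neg]
          rw [hz0]
          simp
        have h1 : Tendsto (fun q : ℝ × ℂ => pH b q.1 q.2) (𝓝 (t, z)) (𝓝 0) := by
          have := hpHc.tendsto
          simp only at this
          rwa [hv] at this
        show Tendsto (fun q : ℝ × ℂ => pW α b q.1 q.2) (𝓝 (t, z)) (𝓝 (pW α b t z))
        rw [hval]
        apply tendsto_of_tendsto_of_tendsto_of_le_of_le' tendsto_const_nhds h1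
        · filter_upwards [hpos] with q hq
          exact hnn q.1 q.2 hq
        · filter_upwards [hpos] with q hq
          exact hle q.1 q.2 hq
      · by_cases hzc : z ∈ Wc α
        · -- a boundary point
          have hv : pH b t z - Gf α t z b = 0 := by
            rcases boundary_cases hα hα2 hzc hz with ⟨h0, h⟩ | ⟨h1, h2⟩
            · rw [Gf_arg_zero h, sub_zero]
              unfold pH
              rw [if_neg]
              rw [h0]
              exact lt_irrefl 0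
            · rw [pH_eq_Gf hα hα2 hb hb0 hb1 ht hz0 h1 h2, sub_self]
          have h1 : Tendsto (fun q : ℝ × ℂ => pH b q.1 q.2 - Gf α q.1 q.2 b)
              (𝓝[Ioi 0 ×ˢ Wc α] (t, z)) (𝓝 0) := by
            have := (hpHc.continuousWithinAt (s := Ioi 0 ×ˢ Wc α)).sub (hcG (t, z) ⟨ht, hzc⟩)
            have h2 : Tendsto (fun q : ℝ × ℂ => pH b q.1 q.2 - Gf α q.1 q.2 b)
              (𝓝[Ioi 0 ×ˢ Wc α] (t, z)) (𝓝 (pH b t z - Gf α t z b)) := this.tendsto
            rwa [hv] at h2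
          show Tendsto (fun q : ℝ × ℂ => pW α b q.1 q.2) (𝓝 (t, z)) (𝓝 (pW α b t z))
          rw [hval, ← nhdsWithin_univ, ← union_compl_self (Ioi (0 : ℝ) ×ˢ Wo α), nhdsWithin_union,
            tendsto_sup]
          constructor
          · have h3 : Tendsto (fun q : ℝ × ℂ => pH b q.1 q.2 - Gf α q.1 q.2 b)
                (𝓝[Ioi 0 ×ˢ Wo α] (t, z)) (𝓝 0) :=
              h1.mono_left (nhdsWithin_mono _ (prod_mono_right (Wo_subset_Wc hα hα2)))
            refine h3.congr' ?_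
            filter_upwards [self_mem_nhdsWithin] with q hq
            exact (pW_of_mem q.1 hq.2).symm
          · refine tendsto_const_nhds.congr' ?_
            filter_upwards [self_mem_nhdsWithin, mem_nhdsWithin_of_mem_nhds hpos] with q hq hq1
            symm
            apply pW_of_notMem
            intro h
            exact hq ⟨hq1, h⟩
        · -- outside
          have hcl : IsClosed {w : ℂ | 0 ≤ ‖w‖ ∧ 0 ≤ w.im ∧
              0 ≤ w.re * Real.sin α + w.im * Real.cos α} := by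
            have h1 := Complex.continuous_re
            have h2 := Complex.continuous_im
            have h3 : Continuous fun z : ℂ => z.re * Real.sin α + z.im * Real.cos α := by fun_prop
            exact (isClosed_le continuous_const continuous_norm).inter
              ((isClosed_le continuous_const h2).inter (isClosed_le continuous_const h3))
          have hzn : z ∈ {w : ℂ | 0 ≤ ‖w‖ ∧ 0 ≤ w.im ∧
              0 ≤ w.re * Real.sin α + w.im * Real.cos α}ᶜ := by
            intro h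
            exact hzc ((mem_Wc_iff hα hα2).2 ⟨hz0, h.2.1, h.2.2⟩)
          have h3 : ∀ᶠ q : ℝ × ℂ in 𝓝 (t, z), q.2 ∈ {w : ℂ | 0 ≤ ‖w‖ ∧ 0 ≤ w.im ∧
              0 ≤ w.re * Real.sin α + w.im * Real.cos α}ᶜ :=
            (continuous_snd.tendsto (t, z)).eventually (hcl.isOpen_compl.mem_nhds hzn)
          show Tendsto (fun q : ℝ × ℂ => pW α b q.1 q.2) (𝓝 (t, z)) (𝓝 (pW α b t z))
          rw [hval]
          refine tendsto_const_nhds.congr' ?_
          filter_upwards [h3] with q hq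
          symm
          apply pW_of_notMem
          intro h
          exact hq ⟨norm_nonneg _, h.1.le, h.2.le⟩

/-- **GC**: joint continuity -/
theorem gc : S_GC := fun _ hα hα2 => Gf_joint hα hα2

end Pool.Agent.N789.GW
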