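import Pool.Agent.N275.QD.Ana

/-!
# Macdonald's function of imaginary order
-/

namespace Pool.Agent.N789.KF

open MeasureTheory Set Filter Topology Complex
open scoped Real
open Pool.Agent.N275.QD

lemma cosh_ge (u : ℝ) : 1 + u ^ 2 / 2 ≤ Real.cosh u := by
  have h1 : Real.cosh u = 1 + 2 * Real.sinh (u / 2) ^ 2 := by
    have := Real.cosh_two_mul (u / 2)
    rw [Real.cosh_sq] at this
    rw [show 2 * (u / 2) = u by ring] at this
    rw [this]
    ring
  have h2 : (u / 2) ^ 2 ≤ Real.sinh (u / 2) ^ 2 := by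
    rcases le_total 0 (u / 2) with h | h
    · have := Real.self_le_sinh_iff.2 h
      nlinarith
    · have := Real.self_le_sinh_iff.2 (neg_nonneg.2 h)
      rw [Real.sinh_neg] at this
      nlinarith
  rw [h1]
  nlinarith

lemma exp_cosh_le {c : ℝ} (hc : 0 < c) (u : ℝ) :
    Real.exp (-(c * Real.cosh u)) ≤ Real.exp (-c) * Real.exp (-(c / 2) * u ^ 2) := by
  rw [← Real.exp_add]
  apply Real.exp_le_exp.2
  have := mul_le_mul_of_nonneg_left (cosh_ge u) hc.le
  nlinarith

lemma integrable_exp_cosh {c : ℝ} (hc : 0 < c) :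
    Integrable (fun u : ℝ => Real.exp (-(c * Real.cosh u))) := by
  refine Integrable.mono' ((integrable_exp_neg_mul_sq (by positivity : 0 < c / 2)).const_mul
    (Real.exp (-c))) (by fun_prop) ?_
  filter_upwards with u
  rw [Real.norm_eq_abs, abs_of_pos (Real.exp_pos _)]
  exact exp_cosh_le hc u

lemma integral_exp_cosh_le {c : ℝ} (hc : 0 < c) :
    ∫ u : ℝ, Real.exp (-(c * Real.cosh u)) ≤ Real.exp (-c) * √(2 * π / c) := by
  have h1 : ∫ u : ℝ, Real.exp (-(c * Real.cosh u)) ≤
      ∫ u : ℝ, Real.exp (-c) * Real.exp (-(c / 2) * u ^ 2) := by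
    apply integral_mono (integrable_exp_cosh hc)
    · exact (integrable_exp_neg_mul_sq (by positivity : 0 < c / 2)).const_mul _
    · intro u
      exact exp_cosh_le hc u
  refine h1.trans (le_of_eq ?_)
  rw [integral_const_mul, integral_gaussian]
  congr 2
  field_simp

/-- the integrand on the line of imaginary part `β` -/
noncomputable def F (x μ β u : ℝ) : ℂ :=
  Complex.exp (-((x : ℂ) * Complex.cosh ((u : ℂ) + (β : ℂ) * I))) *
      Complex.exp (I * (μ : ℂ) * ((u : ℂ) + (β : ℂ) * I))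

lemma cosh_re (u β : ℝ) : (Complex.cosh ((u : ℂ) + (β : ℂ) * I)).re =
    Real.cosh u * Real.cos β := by
  rw [Complex.cosh_add, Complex.cosh_mul_I, Complex.sinh_mul_I, ← Complex.ofReal_cosh,
    ← Complex.ofReal_sinh, ← Complex.ofReal_cos, ← Complex.ofReal_sin]
  simp [-Complex.ofReal_cos, -Complex.ofReal_sin, -Complex.ofReal_cosh, -Complex.ofReal_sinh]

lemma norm_exp1 (x β u : ℝ) :
    ‖Complex.exp (-((x : ℂ) * Complex.cosh ((u : ℂ) + (β : ℂ) * I)))‖ =
      Real.exp (-(x * Real.cos β * Real.cosh u)) := by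
  rw [Complex.norm_exp, Complex.neg_re, Complex.re_ofReal_mul, cosh_re]
  congr 1
  ring

lemma norm_exp2 (μ β u : ℝ) :
    ‖Complex.exp (I * (μ : ℂ) * ((u : ℂ) + (β : ℂ) * I))‖ = Real.exp (-(β * μ)) := by
  rw [Complex.norm_exp]
  congr 1
  simp
  ring

lemma norm_F (x μ β u : ℝ) : ‖F x μ β u‖ =
    Real.exp (-(β * μ)) * Real.exp (-(x * Real.cos β * Real.cosh u)) := by
  unfold F
  rw [norm_mul, norm_exp1, norm_exp2, mul_comm]

lemma cos_pos' {β : ℝ} (h : |β| < π / 2) : 0 < Real.cos β := by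
  rw [abs_lt] at h
  exact Real.cos_pos_of_mem_Ioo ⟨h.1, h.2⟩

lemma continuous_F (x μ β : ℝ) : Continuous (F x μ β) := by
  unfold F
  fun_prop

lemma integrable_F {x μ β : ℝ} (hx : 0 < x) (hβ : |β| < π / 2) : Integrable (F x μ β) := by
  have hc := cos_pos' hβ
  refine Integrable.mono' ((integrable_exp_cosh (by positivity : 0 < x * Real.cos β)).const_mul
    (Real.exp (-(β * μ)))) (continuous_F x μ β).aestronglyMeasurable ?_
  filter_upwards with u
  rw [norm_F]

/-- the derivative of the integrand in the complex variable -/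
noncomputable def F' (x μ β u : ℝ) : ℂ :=
  (-((x : ℂ) * Complex.sinh ((u : ℂ) + (β : ℂ) * I)) + I * (μ : ℂ)) * F x μ β u

lemma hasDerivAt_f (x μ : ℝ) (z : ℂ) : HasDerivAt (fun z : ℂ =>
    Complex.exp (-((x : ℂ) * Complex.cosh z)) * Complex.exp (I * (μ : ℂ) * z))
    ((-((x : ℂ) * Complex.sinh z) + I * (μ : ℂ)) *
      (Complex.exp (-((x : ℂ) * Complex.cosh z)) * Complex.exp (I * (μ : ℂ) * z))) z := by
  have h1 : HasDerivAt (fun z : ℂ => Complex.exp (-((x : ℂ) * Complex.cosh z)))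
      (Complex.exp (-((x : ℂ) * Complex.cosh z)) * (-((x : ℂ) * Complex.sinh z))) z :=
    (((Complex.hasDerivAt_cosh z).const_mul (x : ℂ)).neg).cexp
  have h2 : HasDerivAt (fun z : ℂ => Complex.exp (I * (μ : ℂ) * z))
      (Complex.exp (I * (μ : ℂ) * z) * (I * (μ : ℂ))) z := by
    have := ((hasDerivAt_id z).const_mul (I * (μ : ℂ))).cexp
    simpa using this
  refine (h1.mul h2).congr_deriv ?_
  ring

lemma hasDerivAt_F_u (x μ β u : ℝ) : HasDerivAt (F x μ β) (F' x μ β u) u := by
  have h1 : HasDerivAt (fun u : ℝ => (u : ℂ) + (β : ℂ) * I) 1 u :=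
    (Complex.ofRealCLM.hasDerivAt (x := u)).add_const _
  have h2 := (hasDerivAt_f x μ ((u : ℂ) + (β : ℂ) * I)).comp u h1
  rw [mul_one] at h2
  exact h2

lemma hasDerivAt_F_β (x μ β u : ℝ) : HasDerivAt (fun β => F x μ β u) (I * F' x μ β u) β := by
  have h1 : HasDerivAt (fun β : ℝ => (u : ℂ) + (β : ℂ) * I) I β := by
    have := ((Complex.ofRealCLM.hasDerivAt (x := β)).mul_const I).const_add (u : ℂ)
    simpa using this
  have h2 := (hasDerivAt_f x μ ((u : ℂ) + (β : ℂ) * I)).comp β h1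
  refine h2.congr_deriv ?_
  unfold F' F
  ring

lemma norm_sinh_le (u β : ℝ) : ‖Complex.sinh ((u : ℂ) + (β : ℂ) * I)‖ ≤ Real.cosh u := by
  have h1 : Complex.sinh ((u : ℂ) + (β : ℂ) * I) =
      (Complex.exp ((u : ℂ) + (β : ℂ) * I) - Complex.exp (-((u : ℂ) + (β : ℂ) * I))) / 2 := by
    rw [Complex.sinh]
  rw [h1, norm_div, Real.cosh_eq]
  have h2 : ‖Complex.exp ((u : ℂ) + (β : ℂ) * I)‖ = Real.exp u := by
    rw [Complex.norm_exp]; simp
  have h3 : ‖Complex.exp (-((u : ℂ) + (β : ℂ) * I))‖ = Real.exp (-u) := by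
    rw [Complex.norm_exp]; simp
  have h4 := norm_sub_le (Complex.exp ((u : ℂ) + (β : ℂ) * I))
    (Complex.exp (-((u : ℂ) + (β : ℂ) * I)))
  rw [h2, h3] at h4
  rw [show ‖(2 : ℂ)‖ = 2 by simp]
  linarith

/-- the dominating function -/
lemma norm_F'_le {x μ β c u : ℝ} (hx : 0 < x) (hc : 0 < c) (hβ : |β| < π / 2)
    (hcβ : c ≤ Real.cos β) : ‖F' x μ β u‖ ≤
      ((2 / c + |μ|) * Real.exp (π / 2 * |μ|)) * Real.exp (-(x * c / 2 * Real.cosh u)) := by
  unfold F'
  rw [norm_mul, norm_F]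
  have hcosh := Real.one_le_cosh u
  have h1 : ‖-((x : ℂ) * Complex.sinh ((u : ℂ) + (β : ℂ) * I)) + I * (μ : ℂ)‖ ≤
      x * Real.cosh u + |μ| := by
    refine (norm_add_le _ _).trans ?_
    rw [norm_neg, norm_mul, norm_mul]
    have h2 : ‖(x : ℂ)‖ = x := by
      rw [Complex.norm_real, Real.norm_eq_abs, abs_of_pos hx]
    have h3 : ‖(μ : ℂ)‖ = |μ| := by
      rw [Complex.norm_real, Real.norm_eq_abs]
    rw [h2, h3, Complex.norm_I, one_mul]
    have := mul_le_mul_of_nonneg_left (norm_sinh_le u β) hx.le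
    linarith
  have h4 : Real.exp (-(β * μ)) ≤ Real.exp (π / 2 * |μ|) := by
    apply Real.exp_le_exp.2
    calc -(β * μ) ≤ |β * μ| := neg_le_abs _
      _ = |β| * |μ| := abs_mul _ _
      _ ≤ π / 2 * |μ| := by gcongr
  have h5 : Real.exp (-(x * Real.cos β * Real.cosh u)) ≤
      Real.exp (-(x * c / 2 * Real.cosh u)) * Real.exp (-(x * c / 2 * Real.cosh u)) := by
    rw [← Real.exp_add]
    apply Real.exp_le_exp.2
    have : x * c * Real.cosh u ≤ x * Real.cos β * Real.cosh u := by gcongr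
    linarith
  have h6 : (x * Real.cosh u + |μ|) * Real.exp (-(x * c / 2 * Real.cosh u)) ≤ 2 / c + |μ| := by
    have h7 : x * c / 2 * Real.cosh u * Real.exp (-(x * c / 2 * Real.cosh u)) ≤ 1 := by
      have h8 : x * c / 2 * Real.cosh u ≤ Real.exp (x * c / 2 * Real.cosh u) := by
        have := Real.add_one_le_exp (x * c / 2 * Real.cosh u)
        linarith
      rw [Real.exp_neg, ← div_eq_mul_inv, div_le_one (Real.exp_pos _)]
      exact h8
    have h9 : Real.exp (-(x * c / 2 * Real.cosh u)) ≤ 1 := by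
      rw [Real.exp_le_one_iff]
      have : 0 < x * c / 2 * Real.cosh u := by positivity
      linarith
    have h10 : x * Real.cosh u * Real.exp (-(x * c / 2 * Real.cosh u)) ≤ 2 / c := by
      rw [le_div_iff₀ hc]
      nlinarith
    have h11 : |μ| * Real.exp (-(x * c / 2 * Real.cosh u)) ≤ |μ| :=
      mul_le_of_le_one_right (abs_nonneg _) h9
    rw [add_mul]
    linarith
  have he := Real.exp_pos (-(x * c / 2 * Real.cosh u))
  have he2 := Real.exp_pos (π / 2 * |μ|)
  calc _ ≤ (x * Real.cosh u + |μ|) * (Real.exp (π / 2 * |μ|) *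
        (Real.exp (-(x * c / 2 * Real.cosh u)) * Real.exp (-(x * c / 2 * Real.cosh u)))) := by
        gcongr
    _ = ((x * Real.cosh u + |μ|) * Real.exp (-(x * c / 2 * Real.cosh u))) *
        (Real.exp (π / 2 * |μ|) * Real.exp (-(x * c / 2 * Real.cosh u))) := by ring
    _ ≤ (2 / c + |μ|) * (Real.exp (π / 2 * |μ|) * Real.exp (-(x * c / 2 * Real.cosh u))) := by
        gcongr
    _ = _ := by ring

lemma integral_F'_zero {x μ β : ℝ} (hx : 0 < x) (hβ : |β| < π / 2) :
    Integrable (F' x μ β) ∧ ∫ u, F' x μ β u = 0 := by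
  have hc := cos_pos' hβ
  have hcont : Continuous (F' x μ β) := by
    unfold F' F
    fun_prop
  have hint : Integrable (F' x μ β) := by
    refine Integrable.mono' ((integrable_exp_cosh (by positivity : 0 < x * Real.cos β / 2)).const_mul
      ((2 / Real.cos β + |μ|) * Real.exp (π / 2 * |μ|))) hcont.aestronglyMeasurable ?_
    filter_upwards with u
    exact norm_F'_le hx hc hβ le_rfl
  exact ⟨hint, integral_eq_zero_of_hasDerivAt_of_integrable (hasDerivAt_F_u x μ β) hint
    (integrable_F hx hβ)⟩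

lemma exists_cos_lower {β : ℝ} (hβ : |β| < π / 2) : ∃ c : ℝ, 0 < c ∧
    {β' : ℝ | |β'| < π / 2 ∧ c ≤ Real.cos β'} ∈ 𝓝 β := by
  have hc := cos_pos' hβ
  refine ⟨Real.cos β / 2, by positivity, ?_⟩
  have h1 : ∀ᶠ β' in 𝓝 β, |β'| < π / 2 := (continuous_abs.tendsto β).eventually_lt_const hβ
  have h2 : ∀ᶠ β' in 𝓝 β, Real.cos β / 2 < Real.cos β' :=
    (Real.continuous_cos.tendsto β).eventually_const_lt (by linarith)
  filter_upwards [h1, h2] with β' h1 h2
  exact ⟨h1, h2.le⟩

lemma hasDerivAt_I {x μ β : ℝ} (hx : 0 < x) (hβ : |β| < π / 2) :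
    HasDerivAt (fun β => ∫ u, F x μ β u) 0 β := by
  obtain ⟨c, hc, hs⟩ := exists_cos_lower hβ
  have h := hasDerivAt_integral_of_dominated_loc_of_deriv_le (μ := volume)
    (F := fun β u => F x μ β u) (F' := fun β u => I * F' x μ β u) (x₀ := β)
    (bound := fun u => ((2 / c + |μ|) * Real.exp (π / 2 * |μ|)) *
      Real.exp (-(x * c / 2 * Real.cosh u))) hs
    (Eventually.of_forall fun β => (continuous_F x μ β).aestronglyMeasurable)
    (integrable_F hx hβ)
    (by
      have : Continuous (fun u => I * F' x μ β u) := by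
        unfold F' F
        fun_prop
      exact this.aestronglyMeasurable)
    (by
      filter_upwards with u β' hβ'
      rw [norm_mul, Complex.norm_I, one_mul]
      exact norm_F'_le hx hc hβ'.1 hβ'.2)
    ((integrable_exp_cosh (by positivity)).const_mul _)
    (by
      filter_upwards with u β' _
      exact hasDerivAt_F_β x μ β' u)
  have h2 := h.2
  rw [integral_const_mul, (integral_F'_zero hx hβ).2, mul_zero] at h2
  exact h2

lemma integral_F_eq_zero_line {x μ β : ℝ} (hx : 0 < x) (hβ : |β| < π / 2) :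
    ∫ u, F x μ β u = ∫ u, F x μ 0 u := by
  have hopen : IsOpen (Ioo (-(π / 2)) (π / 2)) := isOpen_Ioo
  have hmem : ∀ {b : ℝ}, b ∈ Ioo (-(π / 2)) (π / 2) → |b| < π / 2 := fun hb => abs_lt.2 hb
  refine hopen.is_const_of_deriv_eq_zero isPreconnected_Ioo
    (f := fun β => ∫ u, F x μ β u) ?_ ?_ ?_ ?_
  · intro b hb
    exact (hasDerivAt_I hx (hmem hb)).differentiableAt.differentiableWithinAt
  · intro b hb
    exact (hasDerivAt_I hx (hmem hb)).deriv
  · exact abs_lt.1 hβ
  · have := Real.pi_pos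
    constructor <;> linarith

lemma integral_F_zero {x μ : ℝ} (hx : 0 < x) : ∫ u, F x μ 0 u = 2 * (Kf μ x : ℂ) := by
  have h0 : |(0 : ℝ)| < π / 2 := by
    rw [abs_zero]
    positivity
  have hint := integrable_F (μ := μ) hx h0
  have hF : ∀ u, F x μ 0 u = ((Real.exp (-(x * Real.cosh u)) * Real.cos (μ * u) : ℝ) : ℂ) +
      ((Real.exp (-(x * Real.cosh u)) * Real.sin (μ * u) : ℝ) : ℂ) * I := by
    intro u
    unfold F
    push_cast
    rw [zero_mul, add_zero, show I * (μ : ℂ) * (u : ℂ) = ((μ : ℂ) * u) * I by ring,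
      Complex.exp_mul_I]
    ring
  have hre : ∀ u, (F x μ 0 u).re = Real.exp (-(x * Real.cosh u)) * Real.cos (μ * u) := by
    intro u
    rw [hF]
    simp [-Complex.ofReal_mul, -Complex.ofReal_exp, -Complex.ofReal_cos, -Complex.ofReal_sin]
  have him : ∀ u, (F x μ 0 u).im = Real.exp (-(x * Real.cosh u)) * Real.sin (μ * u) := by
    intro u
    rw [hF]
    simp [-Complex.ofReal_mul, -Complex.ofReal_exp, -Complex.ofReal_cos, -Complex.ofReal_sin]
  apply Complex.ext
  · have h1 : (∫ u, F x μ 0 u).re = ∫ u, (F x μ 0 u).re :=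
      (integral_re (𝕜 := ℂ) hint).symm
    rw [h1]
    simp only [hre]
    have h2 := integral_comp_abs (f := fun u => Real.exp (-(x * Real.cosh u)) * Real.cos (μ * u))
    have h3 : ∀ u : ℝ, Real.exp (-(x * Real.cosh |u|)) * Real.cos (μ * |u|) =
        Real.exp (-(x * Real.cosh u)) * Real.cos (μ * u) := by
      intro u
      rw [Real.cosh_abs]
      rcases abs_cases u with h | h
      · rw [h.1]
      · rw [h.1, mul_neg, Real.cos_neg]
    simp only [h3] at h2
    rw [h2]
    simp [Kf]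
  · have h1 : (∫ u, F x μ 0 u).im = ∫ u, (F x μ 0 u).im :=
      (integral_im (𝕜 := ℂ) hint).symm
    rw [h1]
    simp only [him]
    have h2 : ∫ u : ℝ, Real.exp (-(x * Real.cosh u)) * Real.sin (μ * u) = 0 := by
      have h3 := integral_neg_eq_self
        (fun u : ℝ => Real.exp (-(x * Real.cosh u)) * Real.sin (μ * u)) volume
      simp only [Real.cosh_neg, mul_neg, Real.sin_neg, integral_neg] at h3
      linarith
    rw [h2]
    simp

theorem part3 {x μ β : ℝ} (hx : 0 < x) (hβ : |β| < π / 2) :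
    ∫ u, F x μ β u = 2 * (Kf μ x : ℂ) := by
  rw [integral_F_eq_zero_line hx hβ, integral_F_zero hx]

theorem part1' {μ x β : ℝ} (hx : 0 < x) (hβ : |β| < π / 2) :
    |Kf μ x| ≤ Real.exp (-(β * μ) - x * Real.cos β) * √(π / (2 * x * Real.cos β)) := by
  have hc := cos_pos' hβ
  have h1 : ‖∫ u, F x μ β u‖ ≤ Real.exp (-(β * μ)) *
      (Real.exp (-(x * Real.cos β)) * √(2 * π / (x * Real.cos β))) := by
    refine (norm_integral_le_integral_norm _).trans ?_
    simp only [norm_F]
    rw [integral_const_mul]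
    gcongr
    exact integral_exp_cosh_le (by positivity)
  rw [part3 hx hβ, norm_mul, Complex.norm_real, Real.norm_eq_abs] at h1
  have h2 : √(2 * π / (x * Real.cos β)) = 2 * √(π / (2 * x * Real.cos β)) := by
    rw [show 2 * π / (x * Real.cos β) = 2 ^ 2 * (π / (2 * x * Real.cos β)) by
      field_simp]
    rw [Real.sqrt_mul (by norm_num), Real.sqrt_sq (by norm_num)]
  rw [h2] at h1
  rw [show ‖(2 : ℂ)‖ = 2 by simp] at h1
  rw [sub_eq_add_neg, Real.exp_add]
  nlinarith

lemma Kf_neg (μ x : ℝ) : Kf (-μ) x = Kf μ x := by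
  unfold Kf
  simp only [neg_mul, Real.cos_neg]

theorem part1_abs {μ x β : ℝ} (hx : 0 < x) (h0 : 0 ≤ β) (hβ : β < π / 2) :
    |Kf μ x| ≤ Real.exp (-(β * |μ|)) * (Real.exp (- (x * Real.cos β)) *
      √(π / (2 * x * Real.cos β))) := by
  have hβ' : |β| < π / 2 := by rwa [abs_of_nonneg h0]
  have key : ∀ ν : ℝ, |Kf ν x| ≤ Real.exp (-(β * ν)) * (Real.exp (- (x * Real.cos β)) *
      √(π / (2 * x * Real.cos β))) := by
    intro ν
    have := part1' (μ := ν) hx hβ'
    rw [sub_eq_add_neg, Real.exp_add, mul_assoc] at this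
    exact this
  rcases abs_cases μ with h | h
  · rw [h.1]
    exact key μ
  · rw [h.1, ← Kf_neg]
    exact key (-μ)

/-- continuity -/
theorem part4 : ContinuousOn (fun q : ℝ × ℝ => Kf q.1 q.2) (univ ×ˢ Ioi 0) := by
  intro q hq
  have hq2 : 0 < q.2 := hq.2
  apply ContinuousAt.continuousWithinAt
  unfold Kf
  apply continuousAt_of_dominated (bound := fun u => Real.exp (-(q.2 / 2 * Real.cosh u)))
  · filter_upwards with p
    apply Continuous.aestronglyMeasurable
    fun_prop
  · have h1 : ∀ᶠ p : ℝ × ℝ in 𝓝 q, q.2 / 2 < p.2 :=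
      (continuous_snd.tendsto q).eventually_const_lt (by linarith)
    filter_upwards [h1] with p hp
    filter_upwards with u
    rw [norm_mul, Real.norm_eq_abs, Real.norm_eq_abs, abs_of_pos (Real.exp_pos _)]
    have h2 : |Real.cos (p.1 * u)| ≤ 1 := Real.abs_cos_le_one _
    have h3 : Real.exp (-(p.2 * Real.cosh u)) ≤ Real.exp (-(q.2 / 2 * Real.cosh u)) := by
      apply Real.exp_le_exp.2
      have := Real.cosh_pos u
      have : q.2 / 2 * Real.cosh u ≤ p.2 * Real.cosh u := by gcongr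
      linarith
    calc _ ≤ Real.exp (-(q.2 / 2 * Real.cosh u)) * 1 := by
          apply mul_le_mul h3 h2 (abs_nonneg _) (Real.exp_pos _).le
      _ = _ := mul_one _
  · exact (integrable_exp_cosh (by positivity)).integrableOn
  · filter_upwards with u
    fun_prop

lemma integrable_exp_abs {c : ℝ} (hc : 0 < c) :
    Integrable (fun u : ℝ => Real.exp (-(c * |u|))) := by
  rw [← integrableOn_univ, ← Iic_union_Ioi (a := (0 : ℝ)), integrableOn_union]
  constructor
  · refine (integrableOn_exp_mul_Iic hc 0).congr_fun ?_ measurableSet_Iic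
    intro u hu
    have hu' : u ≤ 0 := hu
    simp only
    rw [abs_of_nonpos hu']
    congr 1
    ring
  · refine (integrableOn_exp_mul_Ioi (neg_lt_zero.2 hc) 0).congr_fun ?_ measurableSet_Ioi
    intro u hu
    have hu' : 0 < u := hu
    simp only
    rw [abs_of_pos hu']
    congr 1
    ring

lemma continuous_Kf {x : ℝ} (hx : 0 < x) : Continuous (fun μ => Kf μ x) := by
  have h := part4.comp_continuous (f := fun μ : ℝ => (μ, x)) (by fun_prop)
    (fun μ => ⟨mem_univ _, hx⟩)
  exact h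

lemma integrable_G {x ψ : ℝ} (hx : 0 < x) (hψ : |ψ| < π / 2) :
    Integrable (fun μ => Real.exp (ψ * μ) * Kf μ x) := by
  set β := (|ψ| + π / 2) / 2 with hβ
  have h0 : 0 ≤ β := by
    have := abs_nonneg ψ
    have := Real.pi_pos
    positivity
  have h1 : β < π / 2 := by rw [hβ]; linarith
  have h2 : 0 < β - |ψ| := by rw [hβ]; linarith
  refine Integrable.mono' ((integrable_exp_abs h2).mul_const
    (Real.exp (- (x * Real.cos β)) * √(π / (2 * x * Real.cos β)))) ?_ ?_
  · apply Continuous.aestronglyMeasurable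
    have := continuous_Kf hx
    fun_prop
  · filter_upwards with μ
    rw [norm_mul, Real.norm_eq_abs, Real.norm_eq_abs, abs_of_pos (Real.exp_pos _)]
    have h3 := part1_abs (μ := μ) hx h0 h1
    have h4 : Real.exp (ψ * μ) ≤ Real.exp (|ψ| * |μ|) := by
      apply Real.exp_le_exp.2
      rw [← abs_mul]
      exact le_abs_self _
    calc Real.exp (ψ * μ) * |Kf μ x| ≤ Real.exp (|ψ| * |μ|) * (Real.exp (-(β * |μ|)) *
          (Real.exp (- (x * Real.cos β)) * √(π / (2 * x * Real.cos β)))) := by gcongr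
      _ = _ := by
        rw [← mul_assoc, ← Real.exp_add]
        congr 2
        ring

lemma integral_G {x ψ : ℝ} (hx : 0 < x) (hψ : |ψ| < π / 2) :
    ∫ μ, Real.exp (ψ * μ) * Kf μ x = π * Real.exp (-(x * Real.cos ψ)) := by
  have hc := cos_pos' hψ
  set h : ℝ → ℂ := fun u => Complex.exp (-((x : ℂ) * Complex.cosh ((u : ℂ) + (ψ : ℂ) * I)))
    with hh
  have hcont : Continuous h := by
    rw [hh]
    fun_prop
  have hint : Integrable h := by
    refine Integrable.mono' (integrable_exp_cosh (by positivity : 0 < x * Real.cos ψ))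
      hcont.aestronglyMeasurable ?_
    filter_upwards with u
    rw [hh]
    simp only
    rw [norm_exp1]
  have hF : ∀ w : ℝ, FourierTransform.fourier h w =
      ((2 * (Real.exp (ψ * (-(2 * π) * w)) * Kf (-(2 * π) * w) x) : ℝ) : ℂ) := by
    intro w
    rw [Real.fourier_real_eq_integral_exp_smul]
    have h3 := part3 (μ := -(2 * π) * w) hx hψ
    have h4 : ∀ v : ℝ, Complex.exp (((-2 * π * v * w : ℝ) : ℂ) * I) • h v =
        Complex.exp (((ψ * (-(2 * π) * w) : ℝ) : ℂ)) * F x (-(2 * π) * w) ψ v := by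
      intro v
      rw [smul_eq_mul]
      unfold F
      rw [hh]
      simp only
      rw [← Complex.exp_add, ← Complex.exp_add, ← Complex.exp_add]
      congr 1
      push_cast
      linear_combination ((ψ : ℂ) * (2 * π) * w) * Complex.I_sq
    simp only [h4]
    rw [integral_const_mul, h3]
    push_cast
    ring
  have hFint : Integrable (FourierTransform.fourier h) := by
    have h5 : FourierTransform.fourier h = fun w : ℝ =>
        ((2 * (Real.exp (ψ * (-(2 * π) * w)) * Kf (-(2 * π) * w) x) : ℝ) : ℂ) := by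
      funext w
      exact hF w
    rw [h5]
    apply Integrable.ofReal
    apply Integrable.const_mul
    exact (integrable_G hx hψ).comp_mul_left' (R := -(2 * π)) (by
      have := Real.pi_pos
      linarith)
  have hinv := hint.fourierInv_fourier_eq hFint (v := 0) hcont.continuousAt
  rw [Real.fourierInv_eq'] at hinv
  simp only [inner_zero_right, mul_zero, Complex.ofReal_zero, zero_mul, Complex.exp_zero,
    one_smul, hF] at hinv
  have hof : ∫ v : ℝ, ((2 * (Real.exp (ψ * (-(2 * π) * v)) * Kf (-(2 * π) * v) x) : ℝ) : ℂ) =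
      ((∫ v : ℝ, 2 * (Real.exp (ψ * (-(2 * π) * v)) * Kf (-(2 * π) * v) x) : ℝ) : ℂ) :=
    integral_ofReal
  rw [hof, integral_const_mul] at hinv
  rw [Measure.integral_comp_mul_left (fun μ => Real.exp (ψ * μ) * Kf μ x) (-(2 * π))] at hinv
  have h6 : h 0 = ((Real.exp (-(x * Real.cos ψ)) : ℝ) : ℂ) := by
    rw [hh]
    simp only
    rw [Complex.ofReal_zero, zero_add, Complex.cosh_mul_I]
    push_cast
    rfl
  rw [h6] at hinv
  have h7 := Complex.ofReal_injective hinv
  rw [smul_eq_mul, abs_inv, abs_neg, abs_of_pos (by positivity)] at h7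
  rw [← h7]
  have := Real.pi_pos
  field_simp

theorem part2 {x ψ : ℝ} (hx : 0 < x) (hψ : |ψ| < π / 2) :
    IntegrableOn (fun μ => Kf μ x * Real.cosh (ψ * μ)) (Ioi 0) ∧
    ∫ μ in Ioi (0 : ℝ), Kf μ x * Real.cosh (ψ * μ) = π / 2 * Real.exp (-(x * Real.cos ψ)) := by
  have hi1 := integrable_G hx hψ
  have hi2 := integrable_G (ψ := -ψ) hx (by rwa [abs_neg])
  have hI1 := integral_G hx hψ
  have hI2 := integral_G (ψ := -ψ) hx (by rwa [abs_neg])
  rw [Real.cos_neg] at hI2
  have hE : ∀ μ, Kf μ x * Real.cosh (ψ * μ) = 1 / 2 * (Real.exp (ψ * μ) * Kf μ x +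
      Real.exp (-ψ * μ) * Kf μ x) := by
    intro μ
    rw [Real.cosh_eq, neg_mul]
    ring
  have hint : Integrable (fun μ => Kf μ x * Real.cosh (ψ * μ)) := by
    simp only [hE]
    exact (hi1.add hi2).const_mul _
  refine ⟨hint.integrableOn, ?_⟩
  have h1 : ∫ μ, Kf μ x * Real.cosh (ψ * μ) = π * Real.exp (-(x * Real.cos ψ)) := by
    simp only [hE]
    rw [integral_const_mul, integral_add hi1 hi2, hI1, hI2]
    ring
  have h2 := integral_comp_abs (f := fun μ => Kf μ x * Real.cosh (ψ * μ))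
  have h3 : ∀ μ : ℝ, Kf |μ| x * Real.cosh (ψ * |μ|) = Kf μ x * Real.cosh (ψ * μ) := by
    intro μ
    rcases abs_cases μ with h | h
    · rw [h.1]
    · rw [h.1, Kf_neg, mul_neg, Real.cosh_neg]
  simp only [h3] at h2
  rw [h1] at h2
  linarith

/-- **S_KF**: Macdonald's function of imaginary order. -/
theorem kf : S_KF := by
  refine ⟨?_, ?_, ?_, part4⟩
  · intro μ x β hμ hx hβ0 hβ
    exact part1' hx (by rwa [abs_of_nonneg hβ0])
  · intro x ψ hx hψ
    exact part2 hx hψ
  · intro μ x β hx hβ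
    exact ⟨integrable_F hx hβ, part3 hx hβ⟩

end Pool.Agent.N789.KF
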