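import Pool.Agent.N789.QD.KF

/-!
# Superpositions of complex heat kernels: differentiation under the integral sign
-/

namespace Pool.Agent.N789.GW

open MeasureTheory Set Filter Topology Complex
open scoped Real
open Pool.Agent.N275.QD Pool.Agent.N789.KF

lemma cosh_pow_le {κ : ℝ} (hκ : 0 < κ) (k : ℕ) : ∃ C : ℝ, 0 ≤ C ∧ ∀ u : ℝ,
    Real.cosh u ^ k * Real.exp (-(κ * Real.cosh u)) ≤ C * Real.exp (-(κ / 2 * Real.cosh u)) := by
  refine ⟨(k.factorial : ℝ) / (κ / 2) ^ k, by positivity, ?_⟩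
  intro u
  have hc := Real.cosh_pos u
  have h1 := Real.pow_div_factorial_le_exp (κ / 2 * Real.cosh u) (by positivity) k
  rw [div_le_iff₀ (by positivity), mul_pow] at h1
  have h2 : Real.cosh u ^ k ≤ (k.factorial : ℝ) / (κ / 2) ^ k * Real.exp (κ / 2 * Real.cosh u) := by
    rw [div_mul_eq_mul_div, le_div_iff₀ (by positivity)]
    linarith
  calc Real.cosh u ^ k * Real.exp (-(κ * Real.cosh u))
      ≤ ((k.factorial : ℝ) / (κ / 2) ^ k * Real.exp (κ / 2 * Real.cosh u)) *
        Real.exp (-(κ * Real.cosh u)) := by gcongr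
    _ = _ := by
      rw [mul_assoc, ← Real.exp_add]
      congr 2
      ring

lemma integrable_cosh_pow {κ : ℝ} (hκ : 0 < κ) (k : ℕ) :
    Integrable (fun u : ℝ => Real.cosh u ^ k * Real.exp (-(κ * Real.cosh u))) := by
  obtain ⟨C, _, hC⟩ := cosh_pow_le hκ k
  refine Integrable.mono' ((integrable_exp_cosh (by positivity : 0 < κ / 2)).const_mul C) ?_ ?_
  · apply Continuous.aestronglyMeasurable
    have := Real.continuous_cosh
    fun_prop
  · filter_upwards with u
    have hc := Real.cosh_pos u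
    rw [Real.norm_eq_abs, abs_of_nonneg (by positivity)]
    exact hC u

variable {A C S : ℝ → ℂ} {R M : ℝ}

/-- the integrand -/
noncomputable def ee (A C : ℝ → ℂ) (t s y u : ℝ) : ℂ :=
  Complex.exp (-((((s : ℂ) + A u) ^ 2 + ((y : ℂ) + C u) ^ 2) / (4 * (t : ℂ))))

lemma continuous_ee (hA : Continuous A) (hC : Continuous C) (t s y : ℝ) :
    Continuous (ee A C t s y) := by
  unfold ee
  fun_prop

lemma hasDerivAt_ee (t s y u : ℝ) : HasDerivAt (fun s : ℝ => ee A C t s y u)
    (-(((s : ℂ) + A u) / (2 * (t : ℂ))) * ee A C t s y u) s := by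
  unfold ee
  have h1 : HasDerivAt (fun s : ℝ => (s : ℂ) + A u) 1 s :=
    (Complex.ofRealCLM.hasDerivAt (x := s)).add_const _
  have h2 : HasDerivAt (fun s : ℝ => -((((s : ℂ) + A u) ^ 2 + ((y : ℂ) + C u) ^ 2) /
      (4 * (t : ℂ)))) (-(((s : ℂ) + A u) / (2 * (t : ℂ)))) s := by
    refine (((h1.pow 2).add_const (((y : ℂ) + C u) ^ 2)).div_const (4 * (t : ℂ))).neg.congr_deriv ?_
    push_cast
    ring
  refine h2.cexp.congr_deriv ?_
  ring

lemma hasDerivAt_ee_y (t s y u : ℝ) : HasDerivAt (fun y : ℝ => ee A C t s y u)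
    (-(((y : ℂ) + C u) / (2 * (t : ℂ))) * ee A C t s y u) y := by
  have h := hasDerivAt_ee (A := C) (C := A) t y s u
  have h2 : ∀ y : ℝ, ee C A t y s u = ee A C t s y u := by
    intro y
    unfold ee
    rw [add_comm]
  simp only [h2] at h
  exact h

lemma hasDerivAt_ee_t {t : ℝ} (ht : t ≠ 0) (s y u : ℝ) : HasDerivAt (fun t : ℝ => ee A C t s y u)
    ((((s : ℂ) + A u) ^ 2 + ((y : ℂ) + C u) ^ 2) / (4 * (t : ℂ) ^ 2) * ee A C t s y u) t := by
  unfold ee
  have ht' : (t : ℂ) ≠ 0 := by exact_mod_cast ht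
  have h1 : HasDerivAt (fun t : ℝ => (t : ℂ)) 1 t := Complex.ofRealCLM.hasDerivAt (x := t)
  have h2 : HasDerivAt (fun t : ℝ => (((s : ℂ) + A u) ^ 2 + ((y : ℂ) + C u) ^ 2) /
      (4 * (t : ℂ))) (-((((s : ℂ) + A u) ^ 2 + ((y : ℂ) + C u) ^ 2) / (4 * (t : ℂ) ^ 2))) t := by
    have h3 := (h1.const_mul (4 : ℂ)).inv (by simpa using ht')
    have h4 := h3.const_mul (((s : ℂ) + A u) ^ 2 + ((y : ℂ) + C u) ^ 2)
    refine (h4.congr_deriv ?_).congr_of_eventuallyEq ?_
    · field_simp
    · filter_upwards with r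
      rw [div_eq_mul_inv]
      rfl
  have h5 : HasDerivAt (fun t : ℝ => -((((s : ℂ) + A u) ^ 2 + ((y : ℂ) + C u) ^ 2) /
      (4 * (t : ℂ)))) ((((s : ℂ) + A u) ^ 2 + ((y : ℂ) + C u) ^ 2) / (4 * (t : ℂ) ^ 2)) t :=
    h2.neg.congr_deriv (by ring)
  refine h5.cexp.congr_deriv ?_
  ring

/-- the moments -/
noncomputable def mo (A C S : ℝ → ℂ) (k : ℕ) (t s y : ℝ) : ℂ :=
  ∫ u, ((s : ℂ) + A u) ^ k * ee A C t s y u * S u

lemma norm_add_le' (hAb : ∀ u, ‖A u‖ ≤ R * Real.cosh u) {s B : ℝ} (hs : |s| ≤ B) (u : ℝ) :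
    ‖(s : ℂ) + A u‖ ≤ (B + R) * Real.cosh u := by
  have h1 := Real.one_le_cosh u
  have hB : 0 ≤ B := (abs_nonneg s).trans hs
  calc ‖(s : ℂ) + A u‖ ≤ ‖(s : ℂ)‖ + ‖A u‖ := norm_add_le _ _
    _ ≤ B + R * Real.cosh u := by
        rw [Complex.norm_real, Real.norm_eq_abs]
        exact add_le_add hs (hAb u)
    _ ≤ B * Real.cosh u + R * Real.cosh u := by nlinarith
    _ = _ := by ring

lemma nonneg_R (hAb : ∀ u, ‖A u‖ ≤ R * Real.cosh u) : 0 ≤ R := by
  have h := (norm_nonneg _).trans (hAb 0)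
  rwa [Real.cosh_zero, mul_one] at h

lemma integrable_mo (hA : Continuous A) (hC : Continuous C) (hS : AEStronglyMeasurable S volume)
    (hAb : ∀ u, ‖A u‖ ≤ R * Real.cosh u) (hSb : ∀ u, ‖S u‖ ≤ M) (k : ℕ) {t s y κ : ℝ}
    (hκ : 0 < κ) (hE : ∀ u, ‖ee A C t s y u‖ ≤ Real.exp (-(κ * Real.cosh u))) :
    Integrable (fun u => ((s : ℂ) + A u) ^ k * ee A C t s y u * S u) := by
  have hR := nonneg_R hAb
  refine Integrable.mono' ((integrable_cosh_pow hκ k).const_mul ((|s| + R) ^ k * M)) ?_ ?_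
  · apply AEStronglyMeasurable.mul _ hS
    apply Continuous.aestronglyMeasurable
    have := continuous_ee hA hC t s y
    fun_prop
  · filter_upwards with u
    rw [norm_mul, norm_mul, norm_pow]
    have h1 := norm_add_le' hAb (le_refl |s|) u
    have h2 := hE u
    have h3 := hSb u
    have hc := Real.cosh_pos u
    have hs := abs_nonneg s
    calc ‖(s : ℂ) + A u‖ ^ k * ‖ee A C t s y u‖ * ‖S u‖
        ≤ ((|s| + R) * Real.cosh u) ^ k * Real.exp (-(κ * Real.cosh u)) * M := by gcongr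
      _ = _ := by rw [mul_pow]; ring

lemma hasDerivAt_mo (hA : Continuous A) (hC : Continuous C) (hS : AEStronglyMeasurable S volume)
    (hAb : ∀ u, ‖A u‖ ≤ R * Real.cosh u) (hSb : ∀ u, ‖S u‖ ≤ M) (k : ℕ) {t s y κ : ℝ}
    (ht : 0 < t) (hκ : 0 < κ)
    (hE : ∀ᶠ s' in 𝓝 s, ∀ u, ‖ee A C t s' y u‖ ≤ Real.exp (-(κ * Real.cosh u))) :
    HasDerivAt (fun s => mo A C S k t s y)
      (k * mo A C S (k - 1) t s y - mo A C S (k + 1) t s y / (2 * t)) s := by
  have hR := nonneg_R hAb
  have hM : 0 ≤ M := (norm_nonneg _).trans (hSb 0)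
  set B := |s| + 1 with hB
  have hB0 : 0 ≤ B := by positivity
  have hs1 : ∀ᶠ s' in 𝓝 s, |s'| < B :=
    (continuous_abs.tendsto s).eventually_lt_const (by rw [hB]; linarith)
  have hset : {s' : ℝ | |s'| < B ∧ ∀ u, ‖ee A C t s' y u‖ ≤ Real.exp (-(κ * Real.cosh u))} ∈ 𝓝 s :=
    hs1.and hE
  have hE0 : ∀ u, ‖ee A C t s y u‖ ≤ Real.exp (-(κ * Real.cosh u)) := hE.self_of_nhds
  have hbint : Integrable (fun u : ℝ =>
      (k * (B + R) ^ (k - 1) * M) * (Real.cosh u ^ (k - 1) * Real.exp (-(κ * Real.cosh u))) +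
      ((B + R) ^ (k + 1) / (2 * t) * M) *
        (Real.cosh u ^ (k + 1) * Real.exp (-(κ * Real.cosh u)))) :=
    ((integrable_cosh_pow hκ _).const_mul _).add ((integrable_cosh_pow hκ _).const_mul _)
  have h := hasDerivAt_integral_of_dominated_loc_of_deriv_le (μ := volume)
    (F := fun (s : ℝ) u => ((s : ℂ) + A u) ^ k * ee A C t s y u * S u)
    (F' := fun (s : ℝ) u => ((k : ℂ) * ((s : ℂ) + A u) ^ (k - 1) -
      ((s : ℂ) + A u) ^ (k + 1) / (2 * t)) * ee A C t s y u * S u) (x₀ := s)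
    (bound := fun u => (k * (B + R) ^ (k - 1) * M) *
      (Real.cosh u ^ (k - 1) * Real.exp (-(κ * Real.cosh u))) +
      ((B + R) ^ (k + 1) / (2 * t) * M) *
        (Real.cosh u ^ (k + 1) * Real.exp (-(κ * Real.cosh u)))) hset
    (by
      filter_upwards with s'
      apply AEStronglyMeasurable.mul _ hS
      apply Continuous.aestronglyMeasurable
      have := continuous_ee hA hC t s' y
      fun_prop)
    (integrable_mo hA hC hS hAb hSb k hκ hE0)
    (by
      apply AEStronglyMeasurable.mul _ hS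
      apply Continuous.aestronglyMeasurable
      have := continuous_ee hA hC t s y
      fun_prop)
    (by
      filter_upwards with u s' hs'
      have h1 := norm_add_le' hAb hs'.1.le u
      have h2 := hs'.2 u
      have h3 := hSb u
      have hc := Real.cosh_pos u
      rw [norm_mul, norm_mul]
      have h4 : ‖(k : ℂ) * ((s' : ℂ) + A u) ^ (k - 1) - ((s' : ℂ) + A u) ^ (k + 1) / (2 * t)‖ ≤
          k * ((B + R) * Real.cosh u) ^ (k - 1) + ((B + R) * Real.cosh u) ^ (k + 1) / (2 * t) := by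
        refine (norm_sub_le _ _).trans ?_
        rw [norm_mul, norm_pow, norm_div, norm_pow]
        have h5 : ‖(2 * (t : ℂ))‖ = 2 * t := by
          rw [norm_mul, Complex.norm_real, Real.norm_eq_abs, abs_of_pos ht]
          simp
        have h6 : ‖(k : ℂ)‖ = k := by simp
        rw [h5, h6]
        gcongr
      calc _ ≤ (k * ((B + R) * Real.cosh u) ^ (k - 1) +
            ((B + R) * Real.cosh u) ^ (k + 1) / (2 * t)) *
            Real.exp (-(κ * Real.cosh u)) * M := by gcongr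
        _ = _ := by
            rw [mul_pow, mul_pow]
            ring)
    hbint
    (by
      filter_upwards with u s' _
      have h1 : HasDerivAt (fun s : ℝ => (s : ℂ) + A u) 1 s' :=
        (Complex.ofRealCLM.hasDerivAt (x := s')).add_const _
      have h1k : HasDerivAt (fun s : ℝ => ((s : ℂ) + A u) ^ k)
          (k * ((s' : ℂ) + A u) ^ (k - 1)) s' := (h1.pow k).congr_deriv (by ring)
      have h2 : HasDerivAt (fun s : ℝ => ((s : ℂ) + A u) ^ k * ee A C t s y u)
          (k * ((s' : ℂ) + A u) ^ (k - 1) * ee A C t s' y u +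
            ((s' : ℂ) + A u) ^ k * (-(((s' : ℂ) + A u) / (2 * (t : ℂ))) * ee A C t s' y u)) s' :=
        h1k.mul (hasDerivAt_ee (A := A) (C := C) t s' y u)
      refine (h2.mul_const (S u)).congr_deriv ?_
      ring)
  refine h.2.congr_deriv ?_
  unfold mo
  rw [← integral_const_mul, ← integral_div, ← integral_sub]
  · congr 1
    funext u
    ring
  · exact (integrable_mo hA hC hS hAb hSb (k - 1) hκ hE0).const_mul _
  · exact (integrable_mo hA hC hS hAb hSb (k + 1) hκ hE0).div_const _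

lemma ee_swap (A C : ℝ → ℂ) (t s y u : ℝ) : ee C A t y s u = ee A C t s y u := by
  unfold ee
  rw [add_comm]

lemma hasDerivAt_mo_t (hA : Continuous A) (hC : Continuous C)
    (hS : AEStronglyMeasurable S volume)
    (hAb : ∀ u, ‖A u‖ ≤ R * Real.cosh u) (hCb : ∀ u, ‖C u‖ ≤ R * Real.cosh u)
    (hSb : ∀ u, ‖S u‖ ≤ M) {t s y κ : ℝ} (ht : 0 < t) (hκ : 0 < κ)
    (hE : ∀ᶠ t' in 𝓝 t, ∀ u, ‖ee A C t' s y u‖ ≤ Real.exp (-(κ * Real.cosh u))) :
    HasDerivAt (fun t => mo A C S 0 t s y)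
      ((mo A C S 2 t s y + mo C A S 2 t y s) / (4 * (t : ℂ) ^ 2)) t := by
  have hR := nonneg_R hAb
  have hM : 0 ≤ M := (norm_nonneg _).trans (hSb 0)
  have hs1 : ∀ᶠ t' in 𝓝 t, t / 2 < t' := lt_mem_nhds (by linarith)
  have hset : {t' : ℝ | t / 2 < t' ∧
      ∀ u, ‖ee A C t' s y u‖ ≤ Real.exp (-(κ * Real.cosh u))} ∈ 𝓝 t := hs1.and hE
  have hE0 : ∀ u, ‖ee A C t s y u‖ ≤ Real.exp (-(κ * Real.cosh u)) := hE.self_of_nhds
  have hE0' : ∀ u, ‖ee C A t y s u‖ ≤ Real.exp (-(κ * Real.cosh u)) := by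
    intro u
    rw [ee_swap]
    exact hE0 u
  have h := hasDerivAt_integral_of_dominated_loc_of_deriv_le (μ := volume)
    (F := fun (t : ℝ) u => ((s : ℂ) + A u) ^ 0 * ee A C t s y u * S u)
    (F' := fun (t : ℝ) u => (((s : ℂ) + A u) ^ 2 + ((y : ℂ) + C u) ^ 2) / (4 * (t : ℂ) ^ 2) *
      ee A C t s y u * S u) (x₀ := t)
    (bound := fun u => ((((|s| + R) ^ 2 + (|y| + R) ^ 2) / t ^ 2) * M) *
      (Real.cosh u ^ 2 * Real.exp (-(κ * Real.cosh u)))) hset
    (by
      filter_upwards with t'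
      apply AEStronglyMeasurable.mul _ hS
      apply Continuous.aestronglyMeasurable
      have := continuous_ee hA hC t' s y
      fun_prop)
    (integrable_mo hA hC hS hAb hSb 0 hκ hE0)
    (by
      apply AEStronglyMeasurable.mul _ hS
      apply Continuous.aestronglyMeasurable
      have := continuous_ee hA hC t s y
      fun_prop)
    (by
      filter_upwards with u t' ht'
      have h1 := norm_add_le' hAb (le_refl |s|) u
      have h1' := norm_add_le' hCb (le_refl |y|) u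
      have h2 := ht'.2 u
      have h3 := hSb u
      have hc := Real.cosh_pos u
      have ht1 : 0 < t' := by linarith [ht'.1]
      rw [norm_mul, norm_mul]
      have h4 : ‖(((s : ℂ) + A u) ^ 2 + ((y : ℂ) + C u) ^ 2) / (4 * (t' : ℂ) ^ 2)‖ ≤
          (((|s| + R) * Real.cosh u) ^ 2 + ((|y| + R) * Real.cosh u) ^ 2) / t ^ 2 := by
        rw [norm_div]
        have h5 : ‖(4 * (t' : ℂ) ^ 2)‖ = 4 * t' ^ 2 := by
          rw [norm_mul, norm_pow, Complex.norm_real, Real.norm_eq_abs, abs_of_pos ht1]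
          simp
        rw [h5]
        have h6 : t ^ 2 ≤ 4 * t' ^ 2 := by nlinarith [ht'.1]
        have h7 : ‖((s : ℂ) + A u) ^ 2 + ((y : ℂ) + C u) ^ 2‖ ≤
            ((|s| + R) * Real.cosh u) ^ 2 + ((|y| + R) * Real.cosh u) ^ 2 := by
          refine (norm_add_le _ _).trans ?_
          rw [norm_pow, norm_pow]
          gcongr
        exact div_le_div₀ (by positivity) h7 (by positivity) h6
      calc _ ≤ ((((|s| + R) * Real.cosh u) ^ 2 + ((|y| + R) * Real.cosh u) ^ 2) / t ^ 2) *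
            Real.exp (-(κ * Real.cosh u)) * M := by gcongr
        _ = _ := by
            rw [mul_pow, mul_pow]
            ring)
    ((integrable_cosh_pow hκ 2).const_mul _)
    (by
      filter_upwards with u t' ht'
      have ht1 : t' ≠ 0 := by
        have := ht'.1
        have : 0 < t' := by linarith
        exact this.ne'
      simp only [pow_zero, one_mul]
      exact (hasDerivAt_ee_t (A := A) (C := C) ht1 s y u).mul_const (S u))
  refine h.2.congr_deriv ?_
  unfold mo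
  rw [← integral_add (integrable_mo hA hC hS hAb hSb 2 hκ hE0)
    (integrable_mo hC hA hS hCb hSb 2 hκ hE0'), ← integral_div]
  congr 1
  funext u
  rw [ee_swap]
  ring

lemma continuousAt_mo (hA : Continuous A) (hC : Continuous C)
    (hS : AEStronglyMeasurable S volume) (hSb : ∀ u, ‖S u‖ ≤ M) {t s y κ : ℝ} (ht : 0 < t)
    (hκ : 0 < κ)
    (hE : ∀ᶠ p : ℝ × ℝ × ℝ in 𝓝 (t, s, y), ∀ u,
      ‖ee A C p.1 p.2.1 p.2.2 u‖ ≤ Real.exp (-(κ * Real.cosh u))) :
    ContinuousAt (fun p : ℝ × ℝ × ℝ => mo A C S 0 p.1 p.2.1 p.2.2) (t, s, y) := by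
  have hM : 0 ≤ M := (norm_nonneg _).trans (hSb 0)
  unfold mo
  apply continuousAt_of_dominated (bound := fun u => Real.exp (-(κ * Real.cosh u)) * M)
  · filter_upwards with p
    apply AEStronglyMeasurable.mul _ hS
    apply Continuous.aestronglyMeasurable
    have := continuous_ee hA hC p.1 p.2.1 p.2.2
    fun_prop
  · filter_upwards [hE] with p hp
    filter_upwards with u
    rw [pow_zero, one_mul, norm_mul]
    exact mul_le_mul (hp u) (hSb u) (norm_nonneg _) (Real.exp_pos _).le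
  · exact (integrable_exp_cosh hκ).mul_const _
  · filter_upwards with u
    simp only [pow_zero, one_mul]
    apply ContinuousAt.mul _ continuousAt_const
    unfold ee
    have h4t : (4 * (t : ℂ)) ≠ 0 := by
      have : (t : ℂ) ≠ 0 := by exact_mod_cast ht.ne'
      simpa using this
    apply ContinuousAt.cexp
    apply ContinuousAt.neg
    apply ContinuousAt.div
    · fun_prop
    · fun_prop
    · exact h4t

/-- the superposition solves the heat equation -/
theorem heat_mo (hA : Continuous A) (hC : Continuous C) (hS : AEStronglyMeasurable S volume)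
    (hAb : ∀ u, ‖A u‖ ≤ R * Real.cosh u) (hCb : ∀ u, ‖C u‖ ≤ R * Real.cosh u)
    (hSb : ∀ u, ‖S u‖ ≤ M) {t κ : ℝ} {z : ℂ} (ht : 0 < t) (hκ : 0 < κ)
    (hE : ∀ᶠ p : ℝ × ℝ × ℝ in 𝓝 (t, z.re, z.im), ∀ u,
      ‖ee A C p.1 p.2.1 p.2.2 u‖ ≤ Real.exp (-(κ * Real.cosh u))) (c : ℂ) :
    Heat (fun t z => (c * (mo A C S 0 t z.re z.im / (t : ℂ))).re) t z := by
  have ht' : (t : ℂ) ≠ 0 := by exact_mod_cast ht.ne'
  -- the x direction
  have hx : ∀ᶠ s in 𝓝 z.re, ∀ u, ‖ee A C t s z.im u‖ ≤ Real.exp (-(κ * Real.cosh u)) := by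
    have hc : ContinuousAt (fun s : ℝ => (t, s, z.im)) z.re := by fun_prop
    exact hc.eventually hE
  have hy : ∀ᶠ y in 𝓝 z.im, ∀ u, ‖ee C A t y z.re u‖ ≤ Real.exp (-(κ * Real.cosh u)) := by
    have hc : ContinuousAt (fun y : ℝ => (t, z.re, y)) z.im := by fun_prop
    filter_upwards [hc.eventually hE] with y hy u
    rw [ee_swap]
    exact hy u
  have htt : ∀ᶠ t' in 𝓝 t, ∀ u, ‖ee A C t' z.re z.im u‖ ≤ Real.exp (-(κ * Real.cosh u)) := by
    have hc : ContinuousAt (fun t : ℝ => (t, z.re, z.im)) t := by fun_prop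
    exact hc.eventually hE
  -- first and second derivative of a moment in direction s
  have key : ∀ (A C : ℝ → ℂ) (x y : ℝ), Continuous A → Continuous C →
      (∀ u, ‖A u‖ ≤ R * Real.cosh u) →
      (∀ᶠ s in 𝓝 x, ∀ u, ‖ee A C t s y u‖ ≤ Real.exp (-(κ * Real.cosh u))) →
      D2 (fun h : ℝ => (c * (mo A C S 0 t (x + h) y / (t : ℂ))).re)
        (c * ((-(mo A C S 0 t x y) / (2 * t) + mo A C S 2 t x y / (4 * (t : ℂ) ^ 2)) / t)).re := by
    intro A C x y hA hC hAb hE
    refine ⟨fun h => (c * (-(mo A C S 1 t (x + h) y) / (2 * t) / t)).re, ?_, ?_⟩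
    · have hE2 : ∀ᶠ h : ℝ in 𝓝 0, ∀ᶠ s in 𝓝 (x + h), ∀ u,
          ‖ee A C t s y u‖ ≤ Real.exp (-(κ * Real.cosh u)) := by
        have hc : Tendsto (fun h : ℝ => x + h) (𝓝 0) (𝓝 x) := by
          have : ContinuousAt (fun h : ℝ => x + h) 0 := by fun_prop
          simpa [ContinuousAt] using this
        exact hc.eventually (eventually_eventually_nhds.2 hE)
      filter_upwards [hE2] with h hh
      have h1 := hasDerivAt_mo hA hC hS hAb hSb 0 ht hκ hh
      rw [Nat.cast_zero, zero_mul, zero_sub, zero_add] at h1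
      have h2 : HasDerivAt (fun h => mo A C S 0 t (x + h) y)
          (-(mo A C S 1 t (x + h) y / (2 * t))) h := h1.comp_const_add x h
      have h3 := ((h2.div_const (t : ℂ)).const_mul c)
      have h4 := (Complex.reCLM.hasFDerivAt.comp_hasDerivAt h h3)
      refine h4.congr_deriv ?_
      simp only [Complex.reCLM_apply]
      congr 2
      ring
    · have h1 := hasDerivAt_mo hA hC hS hAb hSb 1 ht hκ (by simpa using hE) (s := x)
      have h1' : HasDerivAt (fun s => mo A C S 1 t s y)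
          (((1 : ℕ) : ℂ) * mo A C S (1 - 1) t (x + 0) y - mo A C S (1 + 1) t (x + 0) y / (2 * t))
          (x + 0) := by
        rw [add_zero]
        exact h1
      have h2 := h1'.comp_const_add x 0
      have h3 := (((h2.neg.div_const (2 * (t : ℂ))).div_const (t : ℂ)).const_mul c)
      have h4 := (Complex.reCLM.hasFDerivAt.comp_hasDerivAt (0 : ℝ) h3)
      refine h4.congr_deriv ?_
      simp only [Complex.reCLM_apply]
      rw [add_zero]
      congr 2
      push_cast
      field_simp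
      ring
  refine ⟨(c * ((-(mo A C S 0 t z.re z.im) / (2 * t) +
      mo A C S 2 t z.re z.im / (4 * (t : ℂ) ^ 2)) / t)).re,
    (c * ((-(mo C A S 0 t z.im z.re) / (2 * t) +
      mo C A S 2 t z.im z.re / (4 * (t : ℂ) ^ 2)) / t)).re, ?_, ?_, ?_⟩
  · have h := key A C z.re z.im hA hC hAb hx
    simpa using h
  · have h := key C A z.im z.re hC hA hCb hy
    have h0 : ∀ y : ℝ, mo C A S 0 t (z.im + y) z.re = mo A C S 0 t z.re (z.im + y) := by
      intro y
      unfold mo
      simp only [pow_zero, one_mul, ee_swap]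
    simp only [h0] at h
    simpa using h
  · have h1 := hasDerivAt_mo_t hA hC hS hAb hCb hSb ht hκ htt
    have h2 := (h1.div (Complex.ofRealCLM.hasDerivAt (x := t)) (by simpa using ht')).const_mul c
    have h3 := (Complex.reCLM.hasFDerivAt.comp_hasDerivAt t h2)
    refine h3.congr_deriv ?_
    have h0 : mo C A S 0 t z.im z.re = mo A C S 0 t z.re z.im := by
      unfold mo
      simp only [pow_zero, one_mul, ee_swap]
    rw [h0]
    simp only [Complex.reCLM_apply, Complex.ofRealCLM_apply]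
    rw [← Complex.add_re, ← mul_add]
    congr 2
    field_simp
    simp
    ring

end Pool.Agent.N789.GW
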