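import Pool.Agent.N789.QD.GW1

/-!
# The kernel `Gf` as a superposition of complex heat kernels
-/

namespace Pool.Agent.N789.GW

open MeasureTheory Set Filter Topology Complex
open scoped Real
open Pool.Agent.N275.QD Pool.Agent.N789.KF

/-! ### the ratio of hyperbolic sines -/

lemma Rf_nonneg {α μ : ℝ} (hα : 0 < α) (hα2 : α < π / 2) (hμ : 0 < μ) : 0 ≤ Rf α μ := by
  have := Real.pi_pos
  unfold Rf
  have h1 : 0 < Real.sinh (α * μ) := Real.sinh_pos_iff.2 (by positivity)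
  have h2 : 0 < Real.sinh ((π - α) * μ) := Real.sinh_pos_iff.2 (mul_pos (by linarith) hμ)
  positivity

lemma Rf_le' {α μ : ℝ} (hα : 0 < α) (hα2 : α < π / 2) (hμ : 0 < μ) :
    Rf α μ ≤ Real.exp (-((π - 2 * α) * μ)) := by
  have hpi := Real.pi_pos
  unfold Rf
  have h2 : 0 < Real.sinh ((π - α) * μ) := Real.sinh_pos_iff.2 (mul_pos (by linarith) hμ)
  rw [div_le_iff₀ h2, Real.sinh_eq, Real.sinh_eq, mul_div_assoc', mul_sub, ← Real.exp_add,
    ← Real.exp_add]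
  have h3 : -((π - 2 * α) * μ) + (π - α) * μ = α * μ := by ring
  have h4 : Real.exp (-((π - 2 * α) * μ) + -((π - α) * μ)) ≤ Real.exp (-(α * μ)) := by
    apply Real.exp_le_exp.2
    nlinarith
  rw [h3]
  linarith

lemma measurable_Rf (α : ℝ) : Measurable (Rf α) := by
  unfold Rf
  apply Measurable.div
  · exact (Real.continuous_sinh.comp (by fun_prop : Continuous fun μ : ℝ => α * μ)).measurable
  · exact (Real.continuous_sinh.comp (by fun_prop : Continuous fun μ : ℝ => (π - α) * μ)).measurable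

lemma continuousOn_Rf {α : ℝ} (hα2 : α < π) : ContinuousOn (Rf α) (Ioi 0) := by
  intro μ hμ
  have hμ' : 0 < μ := hμ
  apply ContinuousAt.continuousWithinAt
  unfold Rf
  have h2 : 0 < Real.sinh ((π - α) * μ) := Real.sinh_pos_iff.2 (mul_pos (by linarith) hμ')
  have hs := Real.continuous_sinh
  apply ContinuousAt.div
  · fun_prop
  · fun_prop
  · exact h2.ne'

lemma sinh_abs_le (x : ℝ) : |Real.sinh x| ≤ Real.exp |x| := by
  rw [Real.abs_sinh, Real.sinh_eq]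
  have := Real.exp_pos (-|x|)
  have := Real.exp_pos |x|
  linarith

/-! ### the contour data -/

/-- the complex shifts -/
noncomputable def Ac (r φc u : ℝ) : ℂ := (r : ℂ) * Complex.cos ((φc : ℂ) + (u : ℂ) * I)

noncomputable def Cc (r φc u : ℝ) : ℂ := (r : ℂ) * Complex.sin ((φc : ℂ) + (u : ℂ) * I)

lemma continuous_Ac (r φc : ℝ) : Continuous (Ac r φc) := by
  unfold Ac
  fun_prop

lemma continuous_Cc (r φc : ℝ) : Continuous (Cc r φc) := by
  unfold Cc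
  fun_prop

lemma norm_exp_le_aux (φc u : ℝ) : ‖Complex.exp (((φc : ℂ) + (u : ℂ) * I) * I)‖ = Real.exp (-u) ∧
    ‖Complex.exp (-((φc : ℂ) + (u : ℂ) * I) * I)‖ = Real.exp u := by
  constructor
  · rw [Complex.norm_exp]
    simp
  · rw [Complex.norm_exp]
    simp

lemma norm_cos_le (φc u : ℝ) : ‖Complex.cos ((φc : ℂ) + (u : ℂ) * I)‖ ≤ Real.cosh u := by
  obtain ⟨h1, h2⟩ := norm_exp_le_aux φc u
  rw [Complex.cos, norm_div, Real.cosh_eq, show ‖(2 : ℂ)‖ = 2 by simp]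
  have h := norm_add_le (Complex.exp (((φc : ℂ) + (u : ℂ) * I) * I))
    (Complex.exp (-((φc : ℂ) + (u : ℂ) * I) * I))
  rw [h1, h2] at h
  linarith

lemma norm_sin_le (φc u : ℝ) : ‖Complex.sin ((φc : ℂ) + (u : ℂ) * I)‖ ≤ Real.cosh u := by
  obtain ⟨h1, h2⟩ := norm_exp_le_aux φc u
  rw [Complex.sin, norm_div, norm_mul, Real.cosh_eq, show ‖(2 : ℂ)‖ = 2 by simp, Complex.norm_I,
    mul_one]
  have h := norm_sub_le (Complex.exp (-((φc : ℂ) + (u : ℂ) * I) * I))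
    (Complex.exp (((φc : ℂ) + (u : ℂ) * I) * I))
  rw [h1, h2] at h
  linarith

lemma norm_Ac_le {r : ℝ} (hr : 0 ≤ r) (φc u : ℝ) : ‖Ac r φc u‖ ≤ r * Real.cosh u := by
  unfold Ac
  rw [norm_mul, Complex.norm_real, Real.norm_eq_abs, abs_of_nonneg hr]
  exact mul_le_mul_of_nonneg_left (norm_cos_le φc u) hr

lemma norm_Cc_le {r : ℝ} (hr : 0 ≤ r) (φc u : ℝ) : ‖Cc r φc u‖ ≤ r * Real.cosh u := by
  unfold Cc
  rw [norm_mul, Complex.norm_real, Real.norm_eq_abs, abs_of_nonneg hr]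
  exact mul_le_mul_of_nonneg_left (norm_sin_le φc u) hr

/-- the linear functional positive on the wedge -/
noncomputable def ell (φc x y : ℝ) : ℝ := x * Real.cos φc + y * Real.sin φc

lemma quad_eq (r φc x y u : ℝ) : ((x : ℂ) + Ac r φc u) ^ 2 + ((y : ℂ) + Cc r φc u) ^ 2 =
    (x : ℂ) ^ 2 + (y : ℂ) ^ 2 + (r : ℂ) ^ 2 + 2 * r * ((x : ℂ) * Complex.cos ((φc : ℂ) + (u : ℂ) * I) +
      (y : ℂ) * Complex.sin ((φc : ℂ) + (u : ℂ) * I)) := by
  unfold Ac Cc
  have := Complex.sin_sq_add_cos_sq ((φc : ℂ) + (u : ℂ) * I)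
  linear_combination (r : ℂ) ^ 2 * this

lemma cos_re' (φc u : ℝ) : (Complex.cos ((φc : ℂ) + (u : ℂ) * I)).re =
    Real.cos φc * Real.cosh u := by
  rw [Complex.cos_add, Complex.cos_mul_I, Complex.sin_mul_I, ← Complex.ofReal_cosh,
    ← Complex.ofReal_sinh, ← Complex.ofReal_cos, ← Complex.ofReal_sin]
  simp [-Complex.ofReal_cos, -Complex.ofReal_sin, -Complex.ofReal_cosh, -Complex.ofReal_sinh]

lemma sin_re' (φc u : ℝ) : (Complex.sin ((φc : ℂ) + (u : ℂ) * I)).re =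
    Real.sin φc * Real.cosh u := by
  rw [Complex.sin_add, Complex.cos_mul_I, Complex.sin_mul_I, ← Complex.ofReal_cosh,
    ← Complex.ofReal_sinh, ← Complex.ofReal_cos, ← Complex.ofReal_sin]
  simp [-Complex.ofReal_cos, -Complex.ofReal_sin, -Complex.ofReal_cosh, -Complex.ofReal_sinh]

lemma norm_ee (r φc t x y u : ℝ) : ‖ee (Ac r φc) (Cc r φc) t x y u‖ =
    Real.exp (-((x ^ 2 + y ^ 2 + r ^ 2 + 2 * r * (ell φc x y * Real.cosh u)) / (4 * t))) := by
  unfold ee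
  rw [Complex.norm_exp, quad_eq]
  congr 1
  have h1 : (4 * (t : ℂ)) = ((4 * t : ℝ) : ℂ) := by push_cast; ring
  rw [Complex.neg_re, h1, Complex.div_ofReal_re]
  congr 2
  have h2 : ((x : ℂ) ^ 2 + (y : ℂ) ^ 2 + (r : ℂ) ^ 2 +
      2 * r * ((x : ℂ) * Complex.cos ((φc : ℂ) + (u : ℂ) * I) +
      (y : ℂ) * Complex.sin ((φc : ℂ) + (u : ℂ) * I))) =
      ((x ^ 2 + y ^ 2 + r ^ 2 : ℝ) : ℂ) + ((2 * r : ℝ) : ℂ) *
        (((x : ℝ) : ℂ) * Complex.cos ((φc : ℂ) + (u : ℂ) * I) +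
      ((y : ℝ) : ℂ) * Complex.sin ((φc : ℂ) + (u : ℂ) * I)) := by
    push_cast
    ring
  rw [h2, Complex.add_re, Complex.ofReal_re, Complex.re_ofReal_mul, Complex.add_re,
    Complex.re_ofReal_mul, Complex.re_ofReal_mul, cos_re', sin_re']
  unfold ell
  ring

lemma eventually_norm_ee {r φc t x y : ℝ} (hr : 0 < r) (ht : 0 < t) (hl : 0 < ell φc x y) :
    ∀ᶠ p : ℝ × ℝ × ℝ in 𝓝 (t, x, y), ∀ u,
      ‖ee (Ac r φc) (Cc r φc) p.1 p.2.1 p.2.2 u‖ ≤
        Real.exp (-(r * ell φc x y / (8 * t) * Real.cosh u)) := by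
  have h1 : ∀ᶠ p : ℝ × ℝ × ℝ in 𝓝 (t, x, y), p.1 < 2 * t :=
    (continuous_fst.tendsto (t, x, y)).eventually_lt_const (by simp; linarith)
  have h0 : ∀ᶠ p : ℝ × ℝ × ℝ in 𝓝 (t, x, y), 0 < p.1 :=
    (continuous_fst.tendsto (t, x, y)).eventually_const_lt ht
  have hc : Continuous (fun p : ℝ × ℝ × ℝ => ell φc p.2.1 p.2.2) := by
    unfold ell
    fun_prop
  have h2 : ∀ᶠ p : ℝ × ℝ × ℝ in 𝓝 (t, x, y), ell φc x y / 2 < ell φc p.2.1 p.2.2 :=
    (hc.tendsto (t, x, y)).eventually_const_lt (by simp; linarith)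
  filter_upwards [h0, h1, h2] with p h0 h1 h2 u
  rw [norm_ee]
  apply Real.exp_le_exp.2
  apply neg_le_neg
  rw [le_div_iff₀ (by positivity)]
  have hcosh := Real.cosh_pos u
  have h3 : r * ell φc x y / (8 * t) * Real.cosh u * (4 * p.1) ≤
      r * ell φc x y * Real.cosh u := by
    have h4 : r * ell φc x y / (8 * t) * Real.cosh u * (4 * p.1) ≤
        r * ell φc x y / (8 * t) * Real.cosh u * (4 * (2 * t)) := by
      gcongr
    refine h4.trans (le_of_eq ?_)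
    field_simp
    ring
  have h5 : r * ell φc x y * Real.cosh u ≤ 2 * r * (ell φc p.2.1 p.2.2 * Real.cosh u) := by
    have : r * Real.cosh u * (ell φc x y / 2) ≤ r * Real.cosh u * ell φc p.2.1 p.2.2 := by gcongr
    nlinarith
  nlinarith [sq_nonneg p.2.1, sq_nonneg p.2.2, sq_nonneg r]

/-- the angular density -/
noncomputable def Sc (α φ' φc u : ℝ) : ℂ :=
  ∫ μ in Ioi (0 : ℝ), ((Rf α μ * Real.sinh (φ' * μ) : ℝ) : ℂ) *
    Complex.sinh (((φc : ℂ) + (u : ℂ) * I) * (μ : ℂ))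

lemma norm_sinh_le' {φc μ : ℝ} (hφc : 0 ≤ φc) (hμ : 0 ≤ μ) (u : ℝ) :
    ‖Complex.sinh (((φc : ℂ) + (u : ℂ) * I) * (μ : ℂ))‖ ≤ Real.exp (φc * μ) := by
  have h := norm_sinh_le (φc * μ) (u * μ)
  have h2 : ((φc : ℂ) + (u : ℂ) * I) * (μ : ℂ) = ((φc * μ : ℝ) : ℂ) + ((u * μ : ℝ) : ℂ) * I := by
    push_cast
    ring
  rw [h2]
  refine h.trans ?_
  rw [Real.cosh_eq]
  have h3 : Real.exp (-(φc * μ)) ≤ Real.exp (φc * μ) := by
    apply Real.exp_le_exp.2
    have : 0 ≤ φc * μ := by positivity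
    linarith
  linarith

lemma norm_S_integrand_le {α φ' φc μ : ℝ} (hα : 0 < α) (hα2 : α < π / 2) (hφ' : 0 ≤ φ')
    (hφc : 0 ≤ φc) (hμ : 0 < μ) (u : ℝ) :
    ‖((Rf α μ * Real.sinh (φ' * μ) : ℝ) : ℂ) *
      Complex.sinh (((φc : ℂ) + (u : ℂ) * I) * (μ : ℂ))‖ ≤
      Real.exp (-((π - 2 * α - φ' - φc) * μ)) := by
  rw [norm_mul, Complex.norm_real, Real.norm_eq_abs, abs_mul, abs_of_nonneg (Rf_nonneg hα hα2 hμ)]
  have h1 := Rf_le' hα hα2 hμ
  have h2 := sinh_abs_le (φ' * μ)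
  rw [abs_of_nonneg (by positivity : 0 ≤ φ' * μ)] at h2
  have h3 := norm_sinh_le' hφc hμ.le u
  calc Rf α μ * |Real.sinh (φ' * μ)| * ‖Complex.sinh (((φc : ℂ) + (u : ℂ) * I) * (μ : ℂ))‖
      ≤ Real.exp (-((π - 2 * α) * μ)) * Real.exp (φ' * μ) * Real.exp (φc * μ) := by gcongr
    _ = _ := by
      rw [← Real.exp_add, ← Real.exp_add]
      congr 1
      ring

lemma integrableOn_exp {c : ℝ} (hc : 0 < c) :
    IntegrableOn (fun μ : ℝ => Real.exp (-(c * μ))) (Ioi 0) := by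
  have := integrableOn_exp_mul_Ioi (neg_lt_zero.2 hc) 0
  simpa [neg_mul] using this

lemma integral_exp {c : ℝ} (hc : 0 < c) : ∫ μ in Ioi (0 : ℝ), Real.exp (-(c * μ)) = 1 / c := by
  have := integral_exp_mul_Ioi (neg_lt_zero.2 hc) 0
  simp only [neg_mul, mul_zero, Real.exp_zero] at this
  rw [this]
  field_simp

lemma measurable_integrand (α φ' φc : ℝ) : Measurable (fun p : ℝ × ℝ =>
    ((Rf α p.2 * Real.sinh (φ' * p.2) : ℝ) : ℂ) *
      Complex.sinh (((φc : ℂ) + (p.1 : ℂ) * I) * (p.2 : ℂ))) := by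
  apply Measurable.mul
  · apply Complex.measurable_ofReal.comp
    apply Measurable.mul
    · exact (measurable_Rf α).comp measurable_snd
    · exact (Real.continuous_sinh.comp (by fun_prop : Continuous fun p : ℝ × ℝ => φ' * p.2)).measurable
  · apply Continuous.measurable
    fun_prop

lemma aesm_Sc (α φ' φc : ℝ) : AEStronglyMeasurable (Sc α φ' φc) volume := by
  have h := (measurable_integrand α φ' φc).stronglyMeasurable
  have h2 := h.integral_prod_right' (ν := volume.restrict (Ioi (0 : ℝ)))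
  exact h2.aestronglyMeasurable

lemma norm_Sc_le {α φ' φc : ℝ} (hα : 0 < α) (hα2 : α < π / 2) (hφ' : 0 ≤ φ')
    (hφc : 0 ≤ φc) (h : φ' + φc < π - 2 * α) (u : ℝ) :
    ‖Sc α φ' φc u‖ ≤ 1 / (π - 2 * α - φ' - φc) := by
  have hc : 0 < π - 2 * α - φ' - φc := by linarith
  rw [← integral_exp hc]
  unfold Sc
  refine norm_integral_le_of_norm_le (integrableOn_exp hc) ?_
  filter_upwards [ae_restrict_mem measurableSet_Ioi] with μ hμ
  exact norm_S_integrand_le hα hα2 hφ' hφc hμ u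

/-! ### the representation -/

lemma cosh_cos (φ φc u : ℝ) : Complex.cosh ((u : ℂ) + ((φ - φc : ℝ) : ℂ) * I) =
    Complex.cos ((φ : ℂ) - ((φc : ℂ) + (u : ℂ) * I)) := by
  rw [← Complex.cosh_mul_I]
  congr 1
  push_cast
  linear_combination (u : ℂ) * Complex.I_sq

lemma ee_eq {r φc t : ℝ} (ht : 0 < t) (z : ℂ) (u : ℝ) :
    ee (Ac r φc) (Cc r φc) t z.re z.im u =
      ((Real.exp (-((‖z‖ ^ 2 + r ^ 2) / (4 * t))) : ℝ) : ℂ) *
      Complex.exp (-(((‖z‖ * r / (2 * t) : ℝ) : ℂ) *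
        Complex.cosh ((u : ℂ) + ((arg z - φc : ℝ) : ℂ) * I))) := by
  have ht' : (t : ℂ) ≠ 0 := by exact_mod_cast ht.ne'
  unfold ee
  rw [quad_eq, cosh_cos, Complex.cos_sub]
  have h1 : (z.re : ℂ) = (‖z‖ : ℂ) * Complex.cos (arg z : ℂ) := by
    rw [← Complex.ofReal_cos, ← Complex.ofReal_mul, Complex.norm_mul_cos_arg]
  have h2 : (z.im : ℂ) = (‖z‖ : ℂ) * Complex.sin (arg z : ℂ) := by
    rw [← Complex.ofReal_sin, ← Complex.ofReal_mul, Complex.norm_mul_sin_arg]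
  rw [h1, h2, Complex.ofReal_exp, ← Complex.exp_add]
  congr 1
  push_cast
  have h3 := Complex.sin_sq_add_cos_sq (arg z : ℂ)
  field_simp
  linear_combination (-2 * (‖z‖ : ℂ) ^ 2) * h3

lemma inner_integral {x β φc μ : ℝ} (hx : 0 < x) (hβ : |β| < π / 2) :
    Integrable (fun u : ℝ => Complex.exp (-((x : ℂ) * Complex.cosh ((u : ℂ) + (β : ℂ) * I))) *
      Complex.sinh (((φc : ℂ) + (u : ℂ) * I) * (μ : ℂ))) ∧
    ∫ u : ℝ, Complex.exp (-((x : ℂ) * Complex.cosh ((u : ℂ) + (β : ℂ) * I))) *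
      Complex.sinh (((φc : ℂ) + (u : ℂ) * I) * (μ : ℂ)) =
      ((2 * (Real.sinh ((β + φc) * μ) * Kf μ x) : ℝ) : ℂ) := by
  have h1 : ∀ u : ℝ, Complex.exp (-((x : ℂ) * Complex.cosh ((u : ℂ) + (β : ℂ) * I))) *
      Complex.sinh (((φc : ℂ) + (u : ℂ) * I) * (μ : ℂ)) =
      (1 / 2 * Complex.exp (((β + φc) * μ : ℝ) : ℂ)) * F x μ β u -
        (1 / 2 * Complex.exp ((-((β + φc) * μ) : ℝ) : ℂ)) * F x (-μ) β u := by
    intro u
    unfold F
    rw [Complex.sinh]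
    have e1 : Complex.exp (((φc : ℂ) + (u : ℂ) * I) * (μ : ℂ)) =
        Complex.exp (((β + φc) * μ : ℝ) : ℂ) *
          Complex.exp (I * (μ : ℂ) * ((u : ℂ) + (β : ℂ) * I)) := by
      rw [← Complex.exp_add]
      congr 1
      push_cast
      linear_combination (-(β : ℂ) * μ) * Complex.I_sq
    have e2 : Complex.exp (-(((φc : ℂ) + (u : ℂ) * I) * (μ : ℂ))) =
        Complex.exp ((-((β + φc) * μ) : ℝ) : ℂ) *
          Complex.exp (I * ((-μ : ℝ) : ℂ) * ((u : ℂ) + (β : ℂ) * I)) := by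
      rw [← Complex.exp_add]
      congr 1
      push_cast
      linear_combination ((β : ℂ) * μ) * Complex.I_sq
    rw [e1, e2]
    ring
  simp only [h1]
  have i1 := (integrable_F (μ := μ) hx hβ).const_mul
    (1 / 2 * Complex.exp (((β + φc) * μ : ℝ) : ℂ))
  have i2 := (integrable_F (μ := -μ) hx hβ).const_mul
    (1 / 2 * Complex.exp ((-((β + φc) * μ) : ℝ) : ℂ))
  refine ⟨i1.sub i2, ?_⟩
  rw [integral_sub i1 i2, integral_const_mul, integral_const_mul, part3 hx hβ, part3 hx hβ, Kf_neg,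
    Real.sinh_eq]
  push_cast
  ring

/-- **the representation of `Gf`** -/
theorem Gf_eq {α φc t : ℝ} {z b : ℂ} (hα : 0 < α) (hα2 : α < π / 2) (hb : b ≠ 0)
    (hb0 : 0 ≤ arg b) (hφc : 0 ≤ φc) (h : arg b + φc < π - 2 * α) (hz : z ≠ 0)
    (hzc : |arg z - φc| < π / 2) (ht : 0 < t) :
    Gf α t z b = (((1 / (2 * π ^ 2) : ℝ) : ℂ) *
      (mo (Ac ‖b‖ φc) (Cc ‖b‖ φc) (Sc α (arg b) φc) 0 t z.re z.im / (t : ℂ))).re := by
  have hz' : 0 < ‖z‖ := norm_pos_iff.2 hz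
  have hb' : 0 < ‖b‖ := norm_pos_iff.2 hb
  set x : ℝ := ‖z‖ * ‖b‖ / (2 * t) with hx
  have hx0 : 0 < x := by positivity
  set β : ℝ := arg z - φc with hβ
  have hcos := cos_pos' hzc
  have hκ : 0 < π - 2 * α - arg b - φc := by linarith
  -- the double integrand
  set f : ℝ → ℝ → ℂ := fun u μ =>
    Complex.exp (-((x : ℂ) * Complex.cosh ((u : ℂ) + (β : ℂ) * I))) *
      (((Rf α μ * Real.sinh (arg b * μ) : ℝ) : ℂ) *
        Complex.sinh (((φc : ℂ) + (u : ℂ) * I) * (μ : ℂ))) with hf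
  have hfint : Integrable (Function.uncurry f) (volume.prod (volume.restrict (Ioi (0 : ℝ)))) := by
    have hb1 : Integrable (fun p : ℝ × ℝ => Real.exp (-(x * Real.cos β * Real.cosh p.1)) *
        Real.exp (-((π - 2 * α - arg b - φc) * p.2)))
        (volume.prod (volume.restrict (Ioi (0 : ℝ)))) :=
      (integrable_exp_cosh (by positivity : 0 < x * Real.cos β)).mul_prod (integrableOn_exp hκ)
    refine Integrable.mono' hb1 ?_ ?_
    · apply Measurable.aestronglyMeasurable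
      have hm := measurable_integrand α (arg b) φc
      have hm1 : Measurable (fun p : ℝ × ℝ =>
          Complex.exp (-((x : ℂ) * Complex.cosh ((p.1 : ℂ) + (β : ℂ) * I)))) := by
        apply Continuous.measurable
        fun_prop
      exact hm1.mul hm
    · have hae : ∀ᵐ p : ℝ × ℝ ∂(volume.prod (volume.restrict (Ioi (0 : ℝ)))), p.2 ∈ Ioi (0 : ℝ) := by
        have h1 : ∀ᵐ μ : ℝ ∂(volume.restrict (Ioi (0 : ℝ))), μ ∈ Ioi (0 : ℝ) :=
          ae_restrict_mem measurableSet_Ioi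
        exact (Measure.quasiMeasurePreserving_snd (μ := (volume : Measure ℝ))).ae h1
      filter_upwards [hae] with p hp
      have hp' : 0 < p.2 := hp
      simp only [Function.uncurry, hf]
      rw [norm_mul, norm_exp1]
      gcongr
      exact norm_S_integrand_le hα hα2 hb0 hφc hp' p.1
  have hswap := integral_integral_swap hfint
  have hmo : mo (Ac ‖b‖ φc) (Cc ‖b‖ φc) (Sc α (arg b) φc) 0 t z.re z.im =
      ((Real.exp (-((‖z‖ ^ 2 + ‖b‖ ^ 2) / (4 * t))) : ℝ) : ℂ) *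
        ∫ u : ℝ, ∫ μ in Ioi (0 : ℝ), f u μ := by
    unfold mo
    rw [← integral_const_mul]
    congr 1
    funext u
    rw [pow_zero, one_mul, ee_eq ht, mul_assoc]
    congr 1
    rw [hf]
    simp only
    rw [integral_const_mul]
    rfl
  have hin : ∀ μ : ℝ, ∫ u : ℝ, f u μ =
      ((2 * (Kf μ x * Rf α μ * (Real.sinh (arg z * μ) * Real.sinh (arg b * μ))) : ℝ) : ℂ) := by
    intro μ
    have h1 := (inner_integral (φc := φc) (μ := μ) hx0 hzc).2
    rw [show β + φc = arg z by rw [hβ]; ring] at h1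
    have h2 : ∀ u, f u μ = ((Rf α μ * Real.sinh (arg b * μ) : ℝ) : ℂ) *
        (Complex.exp (-((x : ℂ) * Complex.cosh ((u : ℂ) + (β : ℂ) * I))) *
        Complex.sinh (((φc : ℂ) + (u : ℂ) * I) * (μ : ℂ))) := by
      intro u
      rw [hf]
      simp only
      ring
    simp only [h2]
    rw [integral_const_mul, h1]
    push_cast
    ring
  rw [hmo, hswap]
  simp only [hin]
  have hof : ∫ μ in Ioi (0 : ℝ),
      ((2 * (Kf μ x * Rf α μ * (Real.sinh (arg z * μ) * Real.sinh (arg b * μ))) : ℝ) : ℂ) =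
      ((∫ μ in Ioi (0 : ℝ),
        2 * (Kf μ x * Rf α μ * (Real.sinh (arg z * μ) * Real.sinh (arg b * μ))) : ℝ) : ℂ) :=
    integral_ofReal
  rw [hof, integral_const_mul, ← Complex.ofReal_mul, ← Complex.ofReal_div, ← Complex.ofReal_mul,
    Complex.ofReal_re]
  unfold Gf
  rw [← hx]
  have := Real.pi_pos
  generalize (∫ μ in Ioi (0 : ℝ),
    Kf μ x * Rf α μ * (Real.sinh (arg z * μ) * Real.sinh (arg b * μ))) = J
  field_simp

end Pool.Agent.N789.GW
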