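import Pool.Agent.N789.QD.GW2

/-!
# The kernel `Gf`: bounds, boundary values, continuity and heat equation on the wedge
-/

namespace Pool.Agent.N789.GW

open MeasureTheory Set Filter Topology Complex
open scoped Real
open Pool.Agent.N275.QD Pool.Agent.N789.KF

/-- pointwise bound of the integrand -/
lemma integrand_bound {α β μ x φ φ' a : ℝ} (hα : 0 < α) (hα2 : α < π / 2) (hβ0 : 0 ≤ β)
    (hβ : β < π / 2) (hx : 0 < x) (hφ : 0 ≤ φ) (hφa : φ ≤ a) (hφ' : 0 ≤ φ') (hμ : 0 < μ) :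
    ‖Kf μ x * Rf α μ * (Real.sinh (φ * μ) * Real.sinh (φ' * μ))‖ ≤
      √(π / (2 * x * Real.cos β)) * Real.exp (-((β + π - 2 * α - a - φ') * μ)) := by
  have hβ' : |β| < π / 2 := by rwa [abs_of_nonneg hβ0]
  have hc := cos_pos' hβ'
  have h1 := part1_abs (μ := μ) hx hβ0 hβ
  rw [abs_of_pos hμ] at h1
  have h2 : Real.exp (-(x * Real.cos β)) ≤ 1 := by
    rw [Real.exp_le_one_iff]
    have : 0 < x * Real.cos β := by positivity
    linarith
  have h3 : |Kf μ x| ≤ Real.exp (-(β * μ)) * √(π / (2 * x * Real.cos β)) := by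
    refine h1.trans ?_
    have : Real.exp (-(x * Real.cos β)) * √(π / (2 * x * Real.cos β)) ≤
        √(π / (2 * x * Real.cos β)) := mul_le_of_le_one_left (Real.sqrt_nonneg _) h2
    gcongr
  have h4 := Rf_le' hα hα2 hμ
  have h4' := Rf_nonneg hα hα2 hμ
  have h5 := sinh_abs_le (φ * μ)
  rw [abs_of_nonneg (by positivity : 0 ≤ φ * μ)] at h5
  have h5' : |Real.sinh (φ * μ)| ≤ Real.exp (a * μ) := by
    refine h5.trans ?_
    apply Real.exp_le_exp.2
    gcongr
  have h6 := sinh_abs_le (φ' * μ)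
  rw [abs_of_nonneg (by positivity : 0 ≤ φ' * μ)] at h6
  rw [Real.norm_eq_abs, abs_mul, abs_mul, abs_mul, abs_of_nonneg h4']
  calc |Kf μ x| * Rf α μ * (|Real.sinh (φ * μ)| * |Real.sinh (φ' * μ)|)
      ≤ (Real.exp (-(β * μ)) * √(π / (2 * x * Real.cos β))) * Real.exp (-((π - 2 * α) * μ)) *
        (Real.exp (a * μ) * Real.exp (φ' * μ)) := by gcongr
    _ = √(π / (2 * x * Real.cos β)) * (Real.exp (-(β * μ)) * Real.exp (-((π - 2 * α) * μ)) *
        (Real.exp (a * μ) * Real.exp (φ' * μ))) := by ring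
    _ = _ := by
      rw [← Real.exp_add, ← Real.exp_add, ← Real.exp_add]
      congr 2
      ring

/-- **the bound** -/
theorem Gf_bound {α : ℝ} {b : ℂ} (hα : 0 < α) (hα2 : α < π / 2) (hb : b ≠ 0)
    (hb0 : 0 ≤ arg b) (hb1 : arg b < π / 2 - α) :
    ∃ K : ℝ, 0 ≤ K ∧ ∀ (t : ℝ) (z : ℂ), 0 < t → z ≠ 0 → 0 ≤ arg z → arg z ≤ π - α →
      |Gf α t z b| ≤ K * (Real.exp (-((‖z‖ ^ 2 + ‖b‖ ^ 2) / (4 * t))) / t * √(t / ‖z‖)) := by
  have hpi := Real.pi_pos
  have hbn : 0 < ‖b‖ := norm_pos_iff.2 hb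
  set β := (π / 2 + α + arg b) / 2 with hβ
  have hβ0 : 0 ≤ β := by positivity
  have hβ1 : β < π / 2 := by rw [hβ]; linarith
  have hβ2 : 0 < β + π - 2 * α - (π - α) - arg b := by rw [hβ]; linarith
  have hβ' : |β| < π / 2 := by rwa [abs_of_nonneg hβ0]
  have hc := cos_pos' hβ'
  refine ⟨1 / π ^ 2 * (√(π / (‖b‖ * Real.cos β)) * (1 / (β + π - 2 * α - (π - α) - arg b))),
    by positivity, ?_⟩
  intro t z ht hz hz0 hz1
  have hzn : 0 < ‖z‖ := norm_pos_iff.2 hz
  have hx : 0 < ‖z‖ * ‖b‖ / (2 * t) := by positivity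
  have h1 : |∫ μ in Ioi (0 : ℝ), Kf μ (‖z‖ * ‖b‖ / (2 * t)) * Rf α μ *
      (Real.sinh (arg z * μ) * Real.sinh (arg b * μ))| ≤
      √(π / (2 * (‖z‖ * ‖b‖ / (2 * t)) * Real.cos β)) *
        (1 / (β + π - 2 * α - (π - α) - arg b)) := by
    rw [← integral_exp hβ2, ← integral_const_mul, ← Real.norm_eq_abs]
    refine norm_integral_le_of_norm_le ((integrableOn_exp hβ2).const_mul _) ?_
    filter_upwards [ae_restrict_mem measurableSet_Ioi] with μ hμ
    exact integrand_bound hα hα2 hβ0 hβ1 hx hz0 hz1 hb0 hμ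
  have h2 : √(π / (2 * (‖z‖ * ‖b‖ / (2 * t)) * Real.cos β)) =
      √(t / ‖z‖) * √(π / (‖b‖ * Real.cos β)) := by
    rw [← Real.sqrt_mul (by positivity)]
    congr 1
    field_simp
  rw [h2] at h1
  unfold Gf
  rw [abs_mul, abs_of_pos (by positivity)]
  calc _ ≤ Real.exp (-((‖z‖ ^ 2 + ‖b‖ ^ 2) / (4 * t))) / (π ^ 2 * t) *
        (√(t / ‖z‖) * √(π / (‖b‖ * Real.cos β)) * (1 / (β + π - 2 * α - (π - α) - arg b))) := by
        gcongr
    _ = _ := by
        field_simp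

lemma Gf_arg_zero {α t : ℝ} {z b : ℂ} (hz : arg z = 0) : Gf α t z b = 0 := by
  unfold Gf
  rw [hz]
  simp

/-- boundary value on the second side -/
theorem Gf_arg_top {α t : ℝ} {z b : ℂ} (hα : 0 < α) (hα2 : α < π / 2) (hb : b ≠ 0)
    (hb0 : 0 ≤ arg b) (hb1 : arg b < π / 2 - α) (ht : 0 < t) (hz : z ≠ 0)
    (hz1 : arg z = π - α) :
    Gf α t z b = Real.exp (-((‖z‖ ^ 2 + ‖b‖ ^ 2) / (4 * t))) / (4 * π * t) *
      (Real.exp (-(‖z‖ * ‖b‖ / (2 * t) * Real.cos (α + arg b))) -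
        Real.exp (-(‖z‖ * ‖b‖ / (2 * t) * Real.cos (α - arg b)))) := by
  have hpi := Real.pi_pos
  have hbn : 0 < ‖b‖ := norm_pos_iff.2 hb
  have hzn : 0 < ‖z‖ := norm_pos_iff.2 hz
  have hx : 0 < ‖z‖ * ‖b‖ / (2 * t) := by positivity
  set x := ‖z‖ * ‖b‖ / (2 * t) with hxdef
  have h1 : |α + arg b| < π / 2 := by
    rw [abs_of_nonneg (by positivity)]
    linarith
  have h2 : |α - arg b| < π / 2 := by
    rw [abs_lt]
    constructor <;> linarith
  obtain ⟨i1, e1⟩ := part2 hx h1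
  obtain ⟨i2, e2⟩ := part2 hx h2
  have h3 : ∫ μ in Ioi (0 : ℝ), Kf μ x * Rf α μ *
      (Real.sinh (arg z * μ) * Real.sinh (arg b * μ)) =
      ∫ μ in Ioi (0 : ℝ), (1 / 2 * (Kf μ x * Real.cosh ((α + arg b) * μ)) -
        1 / 2 * (Kf μ x * Real.cosh ((α - arg b) * μ))) := by
    apply setIntegral_congr_fun measurableSet_Ioi
    intro μ hμ
    have hμ' : 0 < μ := hμ
    have h4 : 0 < Real.sinh ((π - α) * μ) := Real.sinh_pos_iff.2 (mul_pos (by linarith) hμ')
    have h5 : Rf α μ * Real.sinh (arg z * μ) = Real.sinh (α * μ) := by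
      unfold Rf
      rw [hz1]
      exact div_mul_cancel₀ _ h4.ne'
    simp only
    have h6 : (α + arg b) * μ = α * μ + arg b * μ := by ring
    have h7 : (α - arg b) * μ = α * μ - arg b * μ := by ring
    rw [h6, h7, Real.cosh_add, Real.cosh_sub]
    linear_combination (Kf μ x * Real.sinh (arg b * μ)) * h5
  unfold Gf
  rw [← hxdef, h3, integral_sub (i1.const_mul _) (i2.const_mul _), integral_const_mul,
    integral_const_mul, e1, e2]
  field_simp
  ring

/-! ### geometry of the wedge -/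

lemma ell_eq (φc : ℝ) (z : ℂ) : ell φc z.re z.im = ‖z‖ * Real.cos (arg z - φc) := by
  unfold ell
  have h1 := Complex.norm_mul_cos_arg z
  have h2 := Complex.norm_mul_sin_arg z
  rw [← h1, ← h2, Real.cos_sub]
  ring

/-- the closed wedge without the tip -/
def Wc (α : ℝ) : Set ℂ := {z | z ≠ 0 ∧ 0 ≤ arg z ∧ arg z ≤ π - α}

/-- a good direction -/
lemma exists_dir {α : ℝ} {b : ℂ} (hα : 0 < α) (hα2 : α < π / 2) (hb1 : arg b < π / 2 - α) :
    ∃ φc : ℝ, 0 ≤ φc ∧ arg b + φc < π - 2 * α ∧ ∀ z ∈ Wc α, |arg z - φc| < π / 2 := by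
  have hpi := Real.pi_pos
  set δ := min α (π / 2 - α - arg b) / 2 with hδ
  have hm : 0 < min α (π / 2 - α - arg b) := lt_min hα (by linarith)
  have hδ0 : 0 < δ := by rw [hδ]; linarith
  have hδ1 : δ < α := by
    have := min_le_left α (π / 2 - α - arg b)
    rw [hδ]
    linarith
  have hδ2 : δ < π / 2 - α - arg b := by
    have := min_le_right α (π / 2 - α - arg b)
    rw [hδ]
    linarith
  refine ⟨π / 2 - α + δ, by linarith, by linarith, ?_⟩
  rintro z ⟨_, hz0, hz1⟩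
  rw [abs_lt]
  constructor <;> linarith

/-- continuity in time and space on the closed wedge -/
theorem Gf_continuousOn {α : ℝ} {b : ℂ} (hα : 0 < α) (hα2 : α < π / 2) (hb : b ≠ 0)
    (hb0 : 0 ≤ arg b) (hb1 : arg b < π / 2 - α) :
    ContinuousOn (fun q : ℝ × ℂ => Gf α q.1 q.2 b) (Ioi 0 ×ˢ Wc α) := by
  obtain ⟨φc, hφc, hsum, hW⟩ := exists_dir hα hα2 hb1
  have hbn : 0 < ‖b‖ := norm_pos_iff.2 hb
  have hrep : ∀ q ∈ Ioi (0 : ℝ) ×ˢ Wc α, Gf α q.1 q.2 b = (((1 / (2 * π ^ 2) : ℝ) : ℂ) *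
      (mo (Ac ‖b‖ φc) (Cc ‖b‖ φc) (Sc α (arg b) φc) 0 q.1 q.2.re q.2.im / (q.1 : ℂ))).re := by
    rintro q ⟨hq1, hq2⟩
    exact Gf_eq hα hα2 hb hb0 hφc hsum hq2.1 (hW _ hq2) hq1
  refine ContinuousOn.congr ?_ hrep
  rintro ⟨t, z⟩ ⟨ht, hz⟩
  have ht' : 0 < t := ht
  have hzn : 0 < ‖z‖ := norm_pos_iff.2 hz.1
  apply ContinuousAt.continuousWithinAt
  have hl : 0 < ell φc z.re z.im := by
    rw [ell_eq]
    exact mul_pos hzn (cos_pos' (hW z hz))
  have h1 := continuousAt_mo (continuous_Ac ‖b‖ φc) (continuous_Cc ‖b‖ φc)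
    (aesm_Sc α (arg b) φc) (norm_Sc_le hα hα2 hb0 hφc hsum) ht' (by positivity)
    (eventually_norm_ee hbn ht' hl)
  have h2 : ContinuousAt (fun q : ℝ × ℂ => ((q.1, q.2.re, q.2.im) : ℝ × ℝ × ℝ)) (t, z) := by
    have := Complex.continuous_re
    have := Complex.continuous_im
    fun_prop
  have h3 : ContinuousAt (fun q : ℝ × ℂ => mo (Ac ‖b‖ φc) (Cc ‖b‖ φc) (Sc α (arg b) φc) 0
      q.1 q.2.re q.2.im) (t, z) := ContinuousAt.comp (f := fun q : ℝ × ℂ =>
        ((q.1, q.2.re, q.2.im) : ℝ × ℝ × ℝ)) (g := fun p : ℝ × ℝ × ℝ =>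
        mo (Ac ‖b‖ φc) (Cc ‖b‖ φc) (Sc α (arg b) φc) 0 p.1 p.2.1 p.2.2) h1 h2
  apply Complex.continuous_re.continuousAt.comp
  apply ContinuousAt.mul continuousAt_const
  apply ContinuousAt.div h3
  · exact (Complex.continuous_ofReal.comp continuous_fst).continuousAt
  · exact_mod_cast ht'.ne'

lemma D2_congr {f g : ℝ → ℝ} {a : ℝ} (h : f =ᶠ[𝓝 0] g) (hg : D2 g a) : D2 f a := by
  obtain ⟨f', h1, h2⟩ := hg
  refine ⟨f', ?_, h2⟩
  filter_upwards [h1, h.eventually_nhds] with x hx1 hx2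
  exact hx1.congr_of_eventuallyEq hx2

lemma Heat_congr {u v : ℝ → ℂ → ℝ} {t : ℝ} {z : ℂ} (h : ∀ᶠ q : ℝ × ℂ in 𝓝 (t, z),
    u q.1 q.2 = v q.1 q.2) (hv : Heat v t z) : Heat u t z := by
  obtain ⟨a, b, h1, h2, h3⟩ := hv
  refine ⟨a, b, D2_congr ?_ h1, D2_congr ?_ h2, h3.congr_of_eventuallyEq ?_⟩
  · have hc : Tendsto (fun x : ℝ => (t, z + (x : ℂ))) (𝓝 0) (𝓝 (t, z)) := by
      have : ContinuousAt (fun x : ℝ => (t, z + (x : ℂ))) 0 := by fun_prop
      simpa [ContinuousAt] using this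
    exact hc.eventually h
  · have hc : Tendsto (fun y : ℝ => (t, z + (y : ℂ) * I)) (𝓝 0) (𝓝 (t, z)) := by
      have : ContinuousAt (fun y : ℝ => (t, z + (y : ℂ) * I)) 0 := by fun_prop
      simpa [ContinuousAt] using this
    exact hc.eventually h
  · have hc : Tendsto (fun τ : ℝ => (τ, z)) (𝓝 t) (𝓝 (t, z)) := by
      have : ContinuousAt (fun τ : ℝ => (τ, z)) t := by fun_prop
      exact this
    exact hc.eventually h

lemma D2_add {f g : ℝ → ℝ} {a b : ℝ} (hf : D2 f a) (hg : D2 g b) :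
    D2 (fun x => f x + g x) (a + b) := by
  obtain ⟨f', h1, h2⟩ := hf
  obtain ⟨g', h3, h4⟩ := hg
  refine ⟨fun x => f' x + g' x, ?_, h2.add h4⟩
  filter_upwards [h1, h3] with x hx1 hx2
  exact hx1.add hx2

lemma D2_const_mul {f : ℝ → ℝ} {a : ℝ} (c : ℝ) (hf : D2 f a) :
    D2 (fun x => c * f x) (c * a) := by
  obtain ⟨f', h1, h2⟩ := hf
  refine ⟨fun x => c * f' x, ?_, h2.const_mul c⟩
  filter_upwards [h1] with x hx1
  exact hx1.const_mul c

lemma Heat_add {u v : ℝ → ℂ → ℝ} {t : ℝ} {z : ℂ} (hu : Heat u t z) (hv : Heat v t z) :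
    Heat (fun t z => u t z + v t z) t z := by
  obtain ⟨a, b, h1, h2, h3⟩ := hu
  obtain ⟨a', b', h1', h2', h3'⟩ := hv
  refine ⟨a + a', b + b', D2_add h1 h1', D2_add h2 h2', ?_⟩
  have := h3.add h3'
  rwa [show a + b + (a' + b') = a + a' + (b + b') by ring] at this

lemma Heat_const_mul {u : ℝ → ℂ → ℝ} {t : ℝ} {z : ℂ} (c : ℝ) (hu : Heat u t z) :
    Heat (fun t z => c * u t z) t z := by
  obtain ⟨a, b, h1, h2, h3⟩ := hu
  refine ⟨c * a, c * b, D2_const_mul c h1, D2_const_mul c h2, ?_⟩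
  have := h3.const_mul c
  rwa [mul_add] at this

lemma Heat_sub {u v : ℝ → ℂ → ℝ} {t : ℝ} {z : ℂ} (hu : Heat u t z) (hv : Heat v t z) :
    Heat (fun t z => u t z - v t z) t z := by
  have h := Heat_add hu (Heat_const_mul (-1) hv)
  refine Heat_congr ?_ h
  filter_upwards with q
  ring

/-- the open wedge -/
def Wo (α : ℝ) : Set ℂ := {z | 0 < z.im ∧ 0 < z.re * Real.sin α + z.im * Real.cos α}

lemma isOpen_Wo (α : ℝ) : IsOpen (Wo α) := by
  have h1 := Complex.continuous_re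
  have h2 := Complex.continuous_im
  have h3 : Continuous fun z : ℂ => z.re * Real.sin α + z.im * Real.cos α := by fun_prop
  exact (isOpen_lt continuous_const h2).inter (isOpen_lt continuous_const h3)

lemma sin_arg_add (α : ℝ) (z : ℂ) : z.re * Real.sin α + z.im * Real.cos α =
    ‖z‖ * Real.sin (arg z + α) := by
  have h1 := Complex.norm_mul_cos_arg z
  have h2 := Complex.norm_mul_sin_arg z
  rw [← h1, ← h2, Real.sin_add]
  ring

/-- the closed wedge in coordinates -/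
lemma mem_Wc_iff {α : ℝ} (hα : 0 < α) (hα2 : α < π / 2) {z : ℂ} :
    z ∈ Wc α ↔ z ≠ 0 ∧ 0 ≤ z.im ∧ 0 ≤ z.re * Real.sin α + z.im * Real.cos α := by
  have hpi := Real.pi_pos
  constructor
  · rintro ⟨h1, h2, h3⟩
    refine ⟨h1, Complex.arg_nonneg_iff.1 h2, ?_⟩
    rw [sin_arg_add]
    apply mul_nonneg (norm_nonneg _)
    apply Real.sin_nonneg_of_nonneg_of_le_pi <;> linarith
  · rintro ⟨h1, h2, h3⟩
    refine ⟨h1, Complex.arg_nonneg_iff.2 h2, ?_⟩
    by_contra hcon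
    push Not at hcon
    have hn : 0 < ‖z‖ := norm_pos_iff.2 h1
    rw [sin_arg_add] at h3
    have h4 : Real.sin (arg z + α) < 0 := by
      have h5 : Real.sin (arg z + α) = - Real.sin (arg z + α - π) := by
        rw [Real.sin_sub_pi]
        ring
      rw [h5]
      have h6 : 0 < Real.sin (arg z + α - π) := by
        apply Real.sin_pos_of_pos_of_lt_pi
        · linarith
        · have := Complex.arg_le_pi z
          linarith
      linarith
    have := mul_neg_of_pos_of_neg hn h4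
    linarith

lemma Wo_subset_Wc {α : ℝ} (hα : 0 < α) (hα2 : α < π / 2) : Wo α ⊆ Wc α := by
  rintro z ⟨h1, h2⟩
  rw [mem_Wc_iff hα hα2]
  refine ⟨?_, h1.le, h2.le⟩
  rintro rfl
  simp at h1

/-- the heat equation in the wedge -/
theorem Gf_heat {α t : ℝ} {z b : ℂ} (hα : 0 < α) (hα2 : α < π / 2) (hb : b ≠ 0)
    (hb0 : 0 ≤ arg b) (hb1 : arg b < π / 2 - α) (ht : 0 < t) (hz : z ∈ Wo α) :
    Heat (fun t z => Gf α t z b) t z := by
  obtain ⟨φc, hφc, hsum, hW⟩ := exists_dir hα hα2 hb1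
  have hbn : 0 < ‖b‖ := norm_pos_iff.2 hb
  have hzc := Wo_subset_Wc hα hα2 hz
  have hzn : 0 < ‖z‖ := norm_pos_iff.2 hzc.1
  have hl : 0 < ell φc z.re z.im := by
    rw [ell_eq]
    exact mul_pos hzn (cos_pos' (hW z hzc))
  have h1 := heat_mo (continuous_Ac ‖b‖ φc) (continuous_Cc ‖b‖ φc)
    (aesm_Sc α (arg b) φc) (norm_Ac_le hbn.le φc) (norm_Cc_le hbn.le φc)
    (norm_Sc_le hα hα2 hb0 hφc hsum) ht (by positivity)
    (eventually_norm_ee hbn ht hl) (((1 / (2 * π ^ 2) : ℝ) : ℂ))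
  refine Heat_congr ?_ h1
  have hmem : ∀ᶠ q : ℝ × ℂ in 𝓝 (t, z), 0 < q.1 ∧ q.2 ∈ Wo α := by
    have h2 : ∀ᶠ q : ℝ × ℂ in 𝓝 (t, z), 0 < q.1 :=
      (continuous_fst.tendsto (t, z)).eventually_const_lt ht
    have h3 : ∀ᶠ q : ℝ × ℂ in 𝓝 (t, z), q.2 ∈ Wo α :=
      (continuous_snd.tendsto (t, z)).eventually ((isOpen_Wo α).mem_nhds hz)
    exact h2.and h3
  filter_upwards [hmem] with q hq
  have hqc := Wo_subset_Wc hα hα2 hq.2
  exact Gf_eq hα hα2 hb hb0 hφc hsum hqc.1 (hW _ hqc) hq.1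

/-- joint continuity -/
theorem Gf_joint {α : ℝ} (hα : 0 < α) (hα2 : α < π / 2) :
    ContinuousOn (fun q : ℝ × ℂ × ℂ => Gf α q.1 q.2.1 q.2.2)
    {q | 0 < q.1 ∧ q.2.1 ≠ 0 ∧ 0 ≤ arg q.2.1 ∧ arg q.2.1 < π / 2 - α ∧
      q.2.2 ≠ 0 ∧ 0 ≤ arg q.2.2 ∧ arg q.2.2 < π / 2 - α} := by
  have hpi := Real.pi_pos
  rintro ⟨t, z, b⟩ ⟨ht, hz, hz0, hz1, hb, hb0, hb1⟩
  simp only at ht hz hz0 hz1 hb hb0 hb1
  have hzn : 0 < ‖z‖ := norm_pos_iff.2 hz
  have hbn : 0 < ‖b‖ := norm_pos_iff.2 hb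
  have hre : ∀ w : ℂ, w ≠ 0 → 0 ≤ arg w → arg w < π / 2 - α → w ∈ slitPlane := by
    intro w hw hw0 hw1
    rw [Complex.mem_slitPlane_iff]
    left
    have h1 := Complex.norm_mul_cos_arg w
    rw [← h1]
    exact mul_pos (norm_pos_iff.2 hw) (cos_pos' (by rw [abs_of_nonneg hw0]; linarith))
  have hcz : ContinuousAt (fun q : ℝ × ℂ × ℂ => arg q.2.1) (t, z, b) := by
    have h := Complex.continuousAt_arg (hre z hz hz0 hz1)
    exact ContinuousAt.comp (f := fun q : ℝ × ℂ × ℂ => q.2.1) (g := arg) h (by fun_prop)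
  have hcb : ContinuousAt (fun q : ℝ × ℂ × ℂ => arg q.2.2) (t, z, b) := by
    have h := Complex.continuousAt_arg (hre b hb hb0 hb1)
    exact ContinuousAt.comp (f := fun q : ℝ × ℂ × ℂ => q.2.2) (g := arg) h (by fun_prop)
  have hx0 : 0 < ‖z‖ * ‖b‖ / (2 * t) := by positivity
  have hcx : ContinuousAt (fun q : ℝ × ℂ × ℂ => ‖q.2.1‖ * ‖q.2.2‖ / (2 * q.1)) (t, z, b) := by
    apply ContinuousAt.div
    · fun_prop
    · fun_prop
    · simp only
      positivity
  unfold Gf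
  apply ContinuousWithinAt.mul
  · apply ContinuousAt.continuousWithinAt
    apply ContinuousAt.div
    · apply ContinuousAt.rexp
      apply ContinuousAt.neg
      apply ContinuousAt.div
      · fun_prop
      · fun_prop
      · simp only
        positivity
    · fun_prop
    · simp only
      positivity
  · set a := arg z + (π / 2 - α - arg z) / 2 with ha
    set a' := arg b + (π / 2 - α - arg b) / 2 with ha'
    have hκ : 0 < 0 + π - 2 * α - a - a' := by rw [ha, ha']; linarith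
    set x0 := ‖z‖ * ‖b‖ / (2 * t) with hx0def
    apply continuousWithinAt_of_dominated
      (bound := fun μ => √(π / (x0 * Real.cos 0)) * Real.exp (-((0 + π - 2 * α - a - a') * μ)))
    · filter_upwards [self_mem_nhdsWithin] with q hq
      have hxq : 0 < ‖q.2.1‖ * ‖q.2.2‖ / (2 * q.1) := by
        have h1 : 0 < ‖q.2.1‖ := norm_pos_iff.2 hq.2.1
        have h2 : 0 < ‖q.2.2‖ := norm_pos_iff.2 hq.2.2.2.2.1
        have h3 : 0 < q.1 := hq.1
        positivity
      apply Measurable.aestronglyMeasurable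
      apply Measurable.mul
      · exact (continuous_Kf hxq).measurable.mul (measurable_Rf α)
      · apply Measurable.mul
        · exact (Real.continuous_sinh.comp
            (by fun_prop : Continuous fun μ : ℝ => arg q.2.1 * μ)).measurable
        · exact (Real.continuous_sinh.comp
            (by fun_prop : Continuous fun μ : ℝ => arg q.2.2 * μ)).measurable
    · have e1 : ∀ᶠ q : ℝ × ℂ × ℂ in 𝓝 (t, z, b), arg q.2.1 < a :=
        hcz.eventually_lt_const (by rw [ha]; simp only; linarith)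
      have e2 : ∀ᶠ q : ℝ × ℂ × ℂ in 𝓝 (t, z, b), arg q.2.2 < a' :=
        hcb.eventually_lt_const (by rw [ha']; simp only; linarith)
      have e3 : ∀ᶠ q : ℝ × ℂ × ℂ in 𝓝 (t, z, b), x0 / 2 < ‖q.2.1‖ * ‖q.2.2‖ / (2 * q.1) :=
        hcx.eventually_const_lt (by simp only; linarith)
      filter_upwards [self_mem_nhdsWithin, mem_nhdsWithin_of_mem_nhds e1,
        mem_nhdsWithin_of_mem_nhds e2, mem_nhdsWithin_of_mem_nhds e3] with q hq e1 e2 e3
      filter_upwards [ae_restrict_mem measurableSet_Ioi] with μ hμ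
      have hμ' : 0 < μ := hμ
      have hxq : 0 < ‖q.2.1‖ * ‖q.2.2‖ / (2 * q.1) := lt_trans (by positivity) e3
      have h1 := integrand_bound hα hα2 le_rfl (by positivity) hxq hq.2.2.1 e1.le
        hq.2.2.2.2.2.1 hμ'
      refine h1.trans ?_
      have h2 : √(π / (2 * (‖q.2.1‖ * ‖q.2.2‖ / (2 * q.1)) * Real.cos 0)) ≤
          √(π / (x0 * Real.cos 0)) := by
        apply Real.sqrt_le_sqrt
        rw [Real.cos_zero]
        apply div_le_div_of_nonneg_left hpi.le (by positivity)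
        linarith
      have h3 : Real.exp (-((0 + π - 2 * α - a - arg q.2.2) * μ)) ≤
          Real.exp (-((0 + π - 2 * α - a - a') * μ)) := by
        apply Real.exp_le_exp.2
        have : (0 + π - 2 * α - a - a') * μ ≤ (0 + π - 2 * α - a - arg q.2.2) * μ := by
          have e2' : arg q.2.2 < a' := e2
          gcongr
        linarith
      gcongr
    · exact (integrableOn_exp hκ).const_mul _
    · filter_upwards [ae_restrict_mem measurableSet_Ioi] with μ hμ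
      apply ContinuousAt.continuousWithinAt
      apply ContinuousAt.mul
      · apply ContinuousAt.mul _ continuousAt_const
        have h4 : ContinuousAt (fun x => Kf μ x) x0 := by
          have h5 := part4.continuousAt (x := (μ, x0)) (by
            apply IsOpen.mem_nhds (isOpen_univ.prod isOpen_Ioi)
            exact ⟨mem_univ _, hx0⟩)
          exact ContinuousAt.comp (f := fun x : ℝ => (μ, x))
            (g := fun q : ℝ × ℝ => Kf q.1 q.2) h5 (by fun_prop)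
        exact ContinuousAt.comp (f := fun q : ℝ × ℂ × ℂ => ‖q.2.1‖ * ‖q.2.2‖ / (2 * q.1))
          (g := fun x => Kf μ x) h4 hcx
      · apply ContinuousAt.mul
        · exact Real.continuous_sinh.continuousAt.comp (hcz.mul continuousAt_const)
        · exact Real.continuous_sinh.continuousAt.comp (hcb.mul continuousAt_const)

end Pool.Agent.N789.GW
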